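import Pool.Agent.H.MP_58d537_lc.Numeric

/-!
# From matrices to the abstract setting
-/

set_option autoImplicit false

open Finset
open scoped InnerProductSpace

namespace Pool.Agent.H.MP_58d537_lc

noncomputable section

section General

variable {ι : Type*} [Fintype ι] [DecidableEq ι]

/-- a unitary matrix as an isometry of the Euclidean space -/
def uE (V : Matrix.unitaryGroup ι ℂ) : EuclideanSpace ℂ ι ≃ₗᵢ[ℂ] EuclideanSpace ℂ ι :=
  Unitary.linearIsometryEquiv ⟨Matrix.toEuclideanCLM (𝕜 := ℂ) V.1, by
    have h := V.2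
    rw [Matrix.mem_unitaryGroup_iff] at h
    have h' := Matrix.mem_unitaryGroup_iff'.mp V.2
    rw [Unitary.mem_iff]
    constructor
    · rw [← map_star, ← map_mul, h', map_one]
    · rw [← map_star, ← map_mul, h, map_one]⟩

lemma uE_apply (V : Matrix.unitaryGroup ι ℂ) (v : EuclideanSpace ℂ ι) :
    uE V v = WithLp.toLp 2 (V.1.mulVec (WithLp.ofLp v)) := rfl

/-- multiplication by a diagonal matrix -/
def dE (d : ι → ℂ) : EuclideanSpace ℂ ι →ₗ[ℂ] EuclideanSpace ℂ ι where
  toFun v := WithLp.toLp 2 (fun i => d i * v i)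
  map_add' u v := by ext i; simp [mul_add]
  map_smul' c v := by ext i; simp; ring

omit [Fintype ι] [DecidableEq ι] in
lemma dE_apply (d : ι → ℂ) (v : EuclideanSpace ℂ ι) (i : ι) : dE d v i = d i * v i := rfl

omit [DecidableEq ι] in
lemma dE_symm (d : ι → ℂ) (hd : ∀ i, (starRingEnd ℂ) (d i) = d i) (u v : EuclideanSpace ℂ ι) :
    ⟪dE d u, v⟫_ℂ = ⟪u, dE d v⟫_ℂ := by
  rw [PiLp.inner_apply, PiLp.inner_apply]
  apply Finset.sum_congr rfl
  intro i _
  simp only [dE_apply, RCLike.inner_apply, map_mul, hd]
  ring

omit [Fintype ι] [DecidableEq ι] in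
lemma dE_idem (d : ι → ℂ) (hd : ∀ i, d i * d i = d i) (v : EuclideanSpace ℂ ι) :
    dE d (dE d v) = dE d v := by
  ext i
  simp only [dE_apply, ← mul_assoc, hd]

omit [DecidableEq ι] in
lemma norm_sq_dE (d : ι → ℂ) (v : EuclideanSpace ℂ ι) :
    ‖dE d v‖ ^ 2 = ∑ i, ‖d i‖ ^ 2 * ‖v i‖ ^ 2 := by
  rw [EuclideanSpace.norm_sq_eq]
  apply Finset.sum_congr rfl
  intro i _
  rw [dE_apply, norm_mul, mul_pow]

end General

variable {N k m : ℕ}

/-- index type: the `k` query registers and the workspace -/
abbrev Idx (N k m : ℕ) : Type := (Fin k → Option (Fin N)) × Fin m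

/-- the phase of one round of `k` parallel queries -/
def orc (x : Fin N → Bool) (q : Idx N k m) : ℂ :=
  ∏ t : Fin k, Option.elim (q.1 t) (1 : ℂ) (fun i => if x i then -1 else 1)

/-- whether coordinate `j` is queried an odd number of times in `q` -/
def par (j : Fin N) (q : Idx N k m) : ℂ :=
  if Odd (univ.filter (fun t : Fin k => q.1 t = some j)).card then 1 else 0

lemma orc_flip (x : Fin N → Bool) (j : Fin N) (q : Idx N k m) :
    orc (flip j x) q = orc x q * (1 - 2 * par j q) := by
  have h1 : orc (flip j x) q = orc x q * ∏ t : Fin k, (if q.1 t = some j then (-1 : ℂ) else 1) := by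
    unfold orc
    rw [← Finset.prod_mul_distrib]
    apply Finset.prod_congr rfl
    intro t _
    rcases h : q.1 t with _ | i
    · simp
    · by_cases hij : i = j
      · subst hij
        simp only [Option.elim_some, flip, Function.update_self, if_true]
        cases x i <;> simp
      · have : ¬ (some i = some j) := fun h => hij (Option.some.inj h)
        simp [flip, hij]
  have h2 : ∏ t : Fin k, (if q.1 t = some j then (-1 : ℂ) else 1) = 1 - 2 * par j q := by
    rw [← Finset.prod_filter, Finset.prod_const]
    unfold par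
    rcases Nat.even_or_odd (univ.filter (fun t : Fin k => q.1 t = some j)).card with h | h
    · rw [h.neg_one_pow, if_neg (Nat.not_odd_iff_even.mpr h)]; ring
    · rw [h.neg_one_pow, if_pos h]; ring
  rw [h1, h2]

lemma orc_sq (x : Fin N → Bool) (q : Idx N k m) : orc x q * orc x q = 1 := by
  unfold orc
  rw [← Finset.prod_mul_distrib]
  apply Finset.prod_eq_one
  intro t _
  rcases q.1 t with _ | i
  · simp
  · simp only [Option.elim_some]
    cases x i <;> simp

lemma orc_star (x : Fin N → Bool) (q : Idx N k m) : star (orc x q) = orc x q := by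
  unfold orc
  rw [star_prod]
  apply Finset.prod_congr rfl
  intro t _
  rcases q.1 t with _ | i
  · simp
  · simp only [Option.elim_some]
    cases x i <;> simp

/-- the oracle matrix -/
def orcU (x : Fin N → Bool) : Matrix.unitaryGroup (Idx N k m) ℂ :=
  ⟨Matrix.diagonal (orc x), by
    rw [Matrix.mem_unitaryGroup_iff, Matrix.star_eq_conjTranspose, Matrix.diagonal_conjTranspose,
      Matrix.diagonal_mul_diagonal]
    have : (fun i => orc x i * star (orc (k := k) (m := m) x) i) = fun _ => 1 := by
      funext q
      rw [Pi.star_apply, orc_star, orc_sq]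
    rw [this, Matrix.diagonal_one]⟩

lemma orcU_apply (x : Fin N → Bool) (v : EuclideanSpace ℂ (Idx N k m)) (q : Idx N k m) :
    uE (orcU x) v q = orc x q * v q := by
  rw [uE_apply]
  change (Matrix.diagonal (orc x)).mulVec (WithLp.ofLp v) q = _
  rw [Matrix.mulVec_diagonal]

lemma card_odd_le (q : Idx N k m) :
    ((univ.filter (fun j : Fin N =>
      Odd (univ.filter (fun t : Fin k => q.1 t = some j)).card)).card : ℝ) ≤ k := by
  have h1 : (univ.filter (fun j : Fin N =>
      Odd (univ.filter (fun t : Fin k => q.1 t = some j)).card)).card ≤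
      ∑ j : Fin N, (univ.filter (fun t : Fin k => q.1 t = some j)).card := by
    rw [Finset.card_filter]
    apply Finset.sum_le_sum
    intro j _
    split_ifs with h
    · exact h.pos
    · exact Nat.zero_le _
  have h2 : ∑ j : Fin N, (univ.filter (fun t : Fin k => q.1 t = some j)).card ≤ k := by
    have : ∑ j : Fin N, (univ.filter (fun t : Fin k => q.1 t = some j)).card ≤
        (univ : Finset (Fin k)).card := by
      rw [← Finset.card_biUnion]
      · exact Finset.card_le_card (Finset.subset_univ _)
      · intro i _ j _ hij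
        rw [Function.onFun, Finset.disjoint_left]
        intro t ht ht'
        rw [Finset.mem_filter] at ht ht'
        rw [ht.2] at ht'
        exact hij (Option.some.inj ht'.2)
    simpa using this
  exact_mod_cast h1.trans h2

lemma sum_par_le (v : EuclideanSpace ℂ (Idx N k m)) :
    ∑ j : Fin N, ‖dE (par j) v‖ ^ 2 ≤ k * ‖v‖ ^ 2 := by
  simp only [norm_sq_dE]
  rw [Finset.sum_comm, EuclideanSpace.norm_sq_eq, Finset.mul_sum]
  apply Finset.sum_le_sum
  intro q _
  rw [← Finset.sum_mul]
  apply mul_le_mul_of_nonneg_right _ (by positivity)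
  refine le_trans (le_of_eq ?_) (card_odd_le q)
  rw [Finset.card_filter]
  push_cast
  apply Finset.sum_congr rfl
  intro j _
  unfold par
  split_ifs <;> simp

/-- the algorithm given by matrices, as an abstract system -/
def mkSys (r : ℕ) (U : Fin (r + 1) → Matrix.unitaryGroup (Idx N k m) ℂ) (s₀ : Idx N k m) :
    QSys N (EuclideanSpace ℂ (Idx N k m)) where
  O x := uE (orcU x)
  P j := dE (par j)
  U t := if h : t < r then uE (U (Fin.succ ⟨t, h⟩)) else LinearIsometryEquiv.refl ℂ _
  init := uE (U 0) (EuclideanSpace.single s₀ 1)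
  k := k
  symm j u v := dE_symm _ (fun q => by unfold par; split_ifs <;> simp) u v
  idem j v := dE_idem _ (fun q => by unfold par; split_ifs <;> simp) v
  query j x v := by
    ext q
    rw [orcU_apply, orcU_apply, orc_flip]
    simp only [PiLp.sub_apply, PiLp.smul_apply, smul_eq_mul, dE_apply]
    ring
  weight v := sum_par_le v
  norm_init := by simp

/-- the state is given by the product of matrices -/
lemma mkSys_st (r : ℕ) (U : Fin (r + 1) → Matrix.unitaryGroup (Idx N k m) ℂ) (s₀ : Idx N k m)
    (x : Fin N → Bool) (t : ℕ) (ht : t ≤ r) (s : Idx N k m) :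
    (mkSys r U s₀).st t x s =
      ((List.ofFn (fun j : Fin t => (U (Fin.succ (Fin.castLE ht j))).1 *
        Matrix.diagonal (orc x : Idx N k m → ℂ))).reverse.prod * (U 0).1) s s₀ := by
  induction t generalizing s with
  | zero =>
    simp only [QSys.st, mkSys, List.ofFn_zero, List.reverse_nil, List.prod_nil, one_mul, uE_apply]
    simp
  | succ t ih =>
    have ih' := ih (Nat.le_of_succ_le ht)
    rw [List.ofFn_succ']
    rw [List.concat_eq_append, List.reverse_append, List.reverse_singleton, List.prod_append,
      List.prod_singleton]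
    have e1 : (fun i : Fin t => (U (Fin.succ (Fin.castLE ht i.castSucc))).1 *
        Matrix.diagonal (orc x : Idx N k m → ℂ)) = fun j : Fin t =>
          (U (Fin.succ (Fin.castLE (Nat.le_of_succ_le ht) j))).1 * Matrix.diagonal (orc x : Idx N k m → ℂ) := by
      funext i; rfl
    rw [e1]
    set M := (List.ofFn (fun j : Fin t => (U (Fin.succ (Fin.castLE (Nat.le_of_succ_le ht) j))).1 *
        Matrix.diagonal (orc x : Idx N k m → ℂ))).reverse.prod with hM
    have e2 : (mkSys r U s₀).st (t + 1) x =
        (mkSys r U s₀).U t ((mkSys r U s₀).O x ((mkSys r U s₀).st t x)) := rfl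
    rw [e2]
    have hlt : t < r := ht
    have e3 : (mkSys r U s₀).U t = uE (U (Fin.succ ⟨t, hlt⟩)) := by
      simp only [mkSys, hlt, dif_pos]
    rw [e3, uE_apply, mul_assoc, Matrix.mul_assoc, Matrix.mul_apply]
    change ((U (Fin.succ ⟨t, hlt⟩)).1.mulVec (WithLp.ofLp ((mkSys r U s₀).O x
      ((mkSys r U s₀).st t x)))) s = _
    rw [Matrix.mulVec, dotProduct]
    apply Finset.sum_congr rfl
    intro q _
    congr 1
    rw [Matrix.diagonal_mul, ← ih' q]
    exact orcU_apply x _ q

end

end Pool.Agent.H.MP_58d537_lc
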