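import Mathlib

/-!
# The Boolean cube: averages, flips, Efron-Stein inequality, restrictions
-/

set_option autoImplicit false

open Finset

namespace Pool.Agent.H.MP_58d537_lc

noncomputable section

variable {N : ℕ}

/-- average ovw the cube -/
def avg (f : (Fin N → Bool) → ℝ) : ℝ := (∑ x, f x) / 2 ^ N

/-- flip the `j`-th bit -/
def flip (j : Fin N) (x : Fin N → Bool) : Fin N → Bool := Function.update x j (!x j)

lemma flip_flip (j : Fin N) (x : Fin N → Bool) : flip j (flip j x) = x := by
  funext i
  by_cases h : i = j
  · subst h; simp [flip]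
  · simp [flip, h]

lemma flip_comm (i j : Fin N) (x : Fin N → Bool) : flip i (flip j x) = flip j (flip i x) := by
  funext l
  by_cases h : i = j
  · subst h; rfl
  · by_cases hl : l = i
    · subst hl
      simp [flip, h]
    · by_cases hl' : l = j
      · subst hl'
        simp [flip, hl]
      · simp [flip, hl, hl']

/-- the flip as an equivalence -/
def flipEquiv (j : Fin N) : (Fin N → Bool) ≃ (Fin N → Bool) where
  toFun := flip j
  invFun := flip j
  left_inv := flip_flip j
  right_inv := flip_flip j

lemma avg_flip (j : Fin N) (f : (Fin N → Bool) → ℝ) : avg (fun x => f (flip j x)) = avg f := by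
  unfold avg
  congr 1
  exact (flipEquiv j).sum_comp f

lemma avg_add (f g : (Fin N → Bool) → ℝ) : avg (fun x => f x + g x) = avg f + avg g := by
  unfold avg
  rw [Finset.sum_add_distrib, add_div]

lemma avg_sub (f g : (Fin N → Bool) → ℝ) : avg (fun x => f x - g x) = avg f - avg g := by
  unfold avg
  rw [Finset.sum_sub_distrib, sub_div]

lemma avg_const_mul (c : ℝ) (f : (Fin N → Bool) → ℝ) : avg (fun x => c * f x) = c * avg f := by
  unfold avg
  rw [← Finset.mul_sum, mul_div_assoc]

lemma avg_const (c : ℝ) : avg (fun _ : Fin N → Bool => c) = c := by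
  unfold avg
  simp

lemma avg_mono {f g : (Fin N → Bool) → ℝ} (h : ∀ x, f x ≤ g x) : avg f ≤ avg g := by
  unfold avg
  exact div_le_div_of_nonneg_right (Finset.sum_le_sum fun x _ => h x) (by positivity)

lemma avg_nonneg {f : (Fin N → Bool) → ℝ} (h : ∀ x, 0 ≤ f x) : 0 ≤ avg f := by
  unfold avg
  exact div_nonneg (Finset.sum_nonneg fun x _ => h x) (by positivity)

lemma avg_sum {ι : Type*} (s : Finset ι) (f : ι → (Fin N → Bool) → ℝ) :
    avg (fun x => ∑ i ∈ s, f i x) = ∑ i ∈ s, avg (f i) := by
  unfold avg
  rw [Finset.sum_comm, Finset.sum_div]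

/-- Cauchy-Schwarz on the cube -/
lemma avg_mul_sq_le (f g : (Fin N → Bool) → ℝ) :
    (avg (fun x => f x * g x)) ^ 2 ≤ avg (fun x => f x ^ 2) * avg (fun x => g x ^ 2) := by
  unfold avg
  rw [div_pow, div_mul_div_comm, ← sq ((2 : ℝ) ^ N)]
  exact div_le_div_of_nonneg_right (Finset.sum_mul_sq_le_sq_mul_sq _ _ _) (by positivity)

lemma avg_sq_le (f : (Fin N → Bool) → ℝ) : (avg f) ^ 2 ≤ avg (fun x => f x ^ 2) := by
  have := avg_mul_sq_le f (fun _ => 1)
  simpa [avg_const] using this

/-- variance -/
def var (f : (Fin N → Bool) → ℝ) : ℝ := avg (fun x => f x ^ 2) - (avg f) ^ 2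

lemma avg_sub_sq (f : (Fin N → Bool) → ℝ) (c : ℝ) :
    avg (fun x => (f x - c) ^ 2) = var f + (avg f - c) ^ 2 := by
  have h : (fun x => (f x - c) ^ 2) = fun x => (f x ^ 2 - (2 * c) * f x) + c ^ 2 := by
    funext x; ring
  rw [h, avg_add (fun x => f x ^ 2 - (2 * c) * f x) (fun _ => c ^ 2),
    avg_sub (fun x => f x ^ 2) (fun x => (2 * c) * f x), avg_const_mul, avg_const]
  unfold var
  ring

lemma var_eq (f : (Fin N → Bool) → ℝ) : var f = avg (fun x => (f x - avg f) ^ 2) := by
  rw [avg_sub_sq]; ring

lemma var_nonneg (f : (Fin N → Bool) → ℝ) : 0 ≤ var f := by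
  rw [var_eq]; exact avg_nonneg fun x => sq_nonneg _

/-- a function invariant under all flips is constant -/
lemma const_of_flip {f : (Fin N → Bool) → ℝ} (h : ∀ j x, f (flip j x) = f x) (x y : Fin N → Bool) :
    f x = f y := by
  classical
  have key : ∀ s : Finset (Fin N), f (fun i => if i ∈ s then y i else x i) = f x := by
    intro s
    induction s using Finset.induction_on with
    | empty => simp
    | insert j s hj ih =>
      rw [← ih]
      by_cases hxy : x j = y j
      · congr 1
        funext i
        by_cases hi : i = j
        · subst hi; simp [hj, hxy]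
        · simp [hi]
      · rw [← h j (fun i => if i ∈ s then y i else x i)]
        congr 1
        funext i
        by_cases hi : i = j
        · subst hi
          simp only [flip, Finset.mem_insert_self, if_true, Function.update_self, hj, if_false]
          cases hx : x i <;> cases hy : y i <;> simp_all
        · simp [flip, hi]
  have := key Finset.univ
  simp only [Finset.mem_univ, if_true] at this
  exact this.symm

/-- **Efron-Stein inequality** on the cube -/
theorem efron_stein (f : (Fin N → Bool) → ℝ) :
    var f ≤ 1 / 4 * ∑ j, avg (fun x => (f x - f (flip j x)) ^ 2) := by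
  classical
  have key : ∀ s : Finset (Fin N), ∃ h : (Fin N → Bool) → ℝ,
      (∀ j ∈ s, ∀ x, h (flip j x) = h x) ∧ avg h = avg f ∧
      (avg (fun x => f x ^ 2) - avg (fun x => h x ^ 2) ≤
        1 / 4 * ∑ j ∈ s, avg (fun x => (f x - f (flip j x)) ^ 2)) ∧
      (∀ i, avg (fun x => (h x - h (flip i x)) ^ 2) ≤ avg (fun x => (f x - f (flip i x)) ^ 2)) := by
    intro s
    induction s using Finset.induction_on with
    | empty => exact ⟨f, by simp, rfl, by simp, fun i => le_refl _⟩
    | insert j s hj ih =>
      obtain ⟨h, h1, h2, h3, h4⟩ := ih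
      refine ⟨fun x => (h x + h (flip j x)) / 2, ?_, ?_, ?_, ?_⟩
      · intro i hi x
        rcases Finset.mem_insert.mp hi with rfl | hi
        · simp only [flip_flip]; ring
        · simp only [flip_comm j i x, h1 i hi]
      · have : (fun x => (h x + h (flip j x)) / 2) =
            fun x => (1 / 2) * h x + (1 / 2) * h (flip j x) := by funext x; ring
        rw [this, avg_add (fun x => (1 / 2) * h x) (fun x => (1 / 2) * h (flip j x)),
          avg_const_mul, avg_const_mul, avg_flip, h2]
        ring
      · rw [Finset.sum_insert hj, mul_add]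
        have e1 : avg (fun x => h x ^ 2) - avg (fun x => ((h x + h (flip j x)) / 2) ^ 2) =
            1 / 4 * avg (fun x => (h x - h (flip j x)) ^ 2) := by
          have e2 : avg (fun x => h (flip j x) ^ 2) = avg (fun x => h x ^ 2) :=
            avg_flip j (fun x => h x ^ 2)
          have e3 : (fun x => ((h x + h (flip j x)) / 2) ^ 2) = fun x =>
              (1 / 4) * (h x ^ 2) + ((1 / 4) * (h (flip j x) ^ 2) + (1 / 2) * (h x * h (flip j x))) := by
            funext x; ring
          have e4 : (fun x => (h x - h (flip j x)) ^ 2) = fun x =>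
              h x ^ 2 + (h (flip j x) ^ 2 + (-2) * (h x * h (flip j x))) := by
            funext x; ring
          rw [e3, e4, avg_add, avg_add, avg_add, avg_add, avg_const_mul, avg_const_mul,
            avg_const_mul, avg_const_mul, e2]
          ring
        have e5 := h4 j
        linarith
      · intro i
        have e1 : (fun x => ((h x + h (flip j x)) / 2 - (h (flip i x) + h (flip j (flip i x))) / 2) ^ 2) =
            fun x => ((1 / 2) * (h x - h (flip i x)) +
              (1 / 2) * (h (flip j x) - h (flip i (flip j x)))) ^ 2 := by
          funext x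
          rw [flip_comm j i x]; ring
        simp only [e1]
        have e2 : ∀ x, ((1 / 2) * (h x - h (flip i x)) +
              (1 / 2) * (h (flip j x) - h (flip i (flip j x)))) ^ 2 ≤
            (1 / 2) * (h x - h (flip i x)) ^ 2 +
              (1 / 2) * (h (flip j x) - h (flip i (flip j x))) ^ 2 := by
          intro x
          nlinarith [sq_nonneg ((h x - h (flip i x)) - (h (flip j x) - h (flip i (flip j x))))]
        refine (avg_mono e2).trans ?_
        rw [avg_add, avg_const_mul, avg_const_mul,
          avg_flip j (fun x => (h x - h (flip i x)) ^ 2)]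
        have := h4 i
        linarith
  obtain ⟨h, h1, h2, h3, -⟩ := key Finset.univ
  have hc : ∀ x, h x = avg h := by
    intro x
    have h5 : ∀ y, h y = h x := fun y => const_of_flip (fun j z => h1 j (Finset.mem_univ j) z) y x
    have h6 : avg h = avg (fun _ : Fin N → Bool => h x) := by
      congr 1
      funext y
      exact h5 y
    rw [h6, avg_const]
  have h7 : avg (fun x => h x ^ 2) = (avg f) ^ 2 := by
    have : (fun x => h x ^ 2) = fun _ => (avg f) ^ 2 := by
      funext x
      rw [hc x, h2]
    rw [this, avg_const]
  unfold var
  rw [← h7]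
  exact h3

/-- one-sided form of the squared differences -/
lemma avg_diff_sq (f : (Fin N → Bool) → ℝ) (j : Fin N) :
    avg (fun x => (f x - f (flip j x)) ^ 2) =
      2 * avg (fun x => (max (f x - f (flip j x)) 0) ^ 2) := by
  have h1 : (fun x => (f x - f (flip j x)) ^ 2) = fun x =>
      (max (f x - f (flip j x)) 0) ^ 2 + (max (f (flip j x) - f x) 0) ^ 2 := by
    funext x
    rcases le_total (f x) (f (flip j x)) with h | h
    · rw [max_eq_right (by linarith), max_eq_left (by linarith)]; ring
    · rw [max_eq_left (by linarith), max_eq_right (by linarith)]; ring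
  have h2 : avg (fun x => (max (f (flip j x) - f x) 0) ^ 2) =
      avg (fun x => (max (f x - f (flip j x)) 0) ^ 2) := by
    have := avg_flip j (fun x => (max (f x - f (flip j x)) 0) ^ 2)
    simp only [flip_flip] at this
    exact this
  rw [h1, avg_add, h2]
  ring

theorem efron_stein_pos (f : (Fin N → Bool) → ℝ) :
    var f ≤ 1 / 2 * ∑ j, avg (fun x => (max (f x - f (flip j x)) 0) ^ 2) := by
  have := efron_stein f
  simp only [avg_diff_sq] at this
  rw [← Finset.mul_sum] at this
  linarith

/-! ### restrictions -/

/-- overwrite `x` by `a` on `S` -/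
def ovw (S : Finset (Fin N)) (a x : Fin N → Bool) : Fin N → Bool :=
  fun i => if i ∈ S then a i else x i

lemma ovw_flip_mem {S : Finset (Fin N)} {j : Fin N} (hj : j ∈ S) (a x : Fin N → Bool) :
    ovw S a (flip j x) = ovw S a x := by
  funext i
  unfold ovw
  by_cases hi : i ∈ S
  · simp [hi]
  · have : i ≠ j := fun h => hi (h ▸ hj)
    simp [hi, flip, this]

lemma ovw_flip {S : Finset (Fin N)} {j : Fin N} (hj : j ∉ S) (a x : Fin N → Bool) :
    ovw S a (flip j x) = flip j (ovw S a x) := by
  funext i
  unfold ovw flip
  by_cases hij : i = j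
  · subst hij; simp [hj]
  · simp [hij]

lemma ovw_insert {S : Finset (Fin N)} {j : Fin N} (hj : j ∉ S) (a x : Fin N → Bool) (b : Bool) :
    ovw (insert j S) (Function.update a j b) x = Function.update (ovw S a x) j b := by
  funext i
  unfold ovw
  by_cases hij : i = j
  · subst hij; simp
  · by_cases hi : i ∈ S
    · simp [hi, hij]
    · simp [hi, hij]

/-- average of `f` under the restriction -/
def avgR (S : Finset (Fin N)) (a : Fin N → Bool) (f : (Fin N → Bool) → ℝ) : ℝ :=
  avg (fun x => f (ovw S a x))

lemma avgR_empty (a : Fin N → Bool) (f : (Fin N → Bool) → ℝ) : avgR ∅ a f = avg f := by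
  unfold avgR ovw
  simp

lemma avgR_split {S : Finset (Fin N)} {j : Fin N} (hj : j ∉ S) (a : Fin N → Bool)
    (f : (Fin N → Bool) → ℝ) :
    avgR S a f = (avgR (insert j S) (Function.update a j true) f +
      avgR (insert j S) (Function.update a j false) f) / 2 := by
  unfold avgR
  simp only [ovw_insert hj]
  have h1 : ∀ y : Fin N → Bool, f (Function.update y j true) + f (Function.update y j false) =
      f y + f (flip j y) := by
    intro y
    cases hy : y j
    · have e1 : Function.update y j false = y := by rw [← hy]; exact Function.update_eq_self j y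
      have e2 : flip j y = Function.update y j true := by unfold flip; rw [hy]; rfl
      rw [e1, e2]; ring
    · have e1 : Function.update y j true = y := by rw [← hy]; exact Function.update_eq_self j y
      have e2 : flip j y = Function.update y j false := by unfold flip; rw [hy]; rfl
      rw [e1, e2]
  rw [← avg_add]
  have h2 : (fun x => f (Function.update (ovw S a x) j true) +
      f (Function.update (ovw S a x) j false)) =
      fun x => f (ovw S a x) + f (ovw S a (flip j x)) := by
    funext x
    rw [h1, ovw_flip hj]
  rw [h2, avg_add, avg_flip j (fun x => f (ovw S a x))]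
  ring

lemma sum_ovw (S : Finset (Fin N)) (a : Fin N → Bool) (f : (Fin N → Bool) → ℝ) :
    ∑ x, f (ovw S a x) =
      2 ^ S.card * ∑ y ∈ univ.filter (fun y : Fin N → Bool => ∀ i ∈ S, y i = a i), f y := by
  classical
  induction S using Finset.induction_on generalizing f with
  | empty =>
    have : ∀ x, ovw ∅ a x = x := fun x => by funext i; simp [ovw]
    simp [this]
  | insert j S hj ih =>
    have h1 : ∀ x, ovw (insert j S) a x = Function.update (ovw S a x) j (a j) := by
      intro x
      have := ovw_insert hj a x (a j)
      rwa [Function.update_eq_self] at this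
    simp only [h1]
    rw [ih (fun y => f (Function.update y j (a j))), Finset.card_insert_of_notMem hj, pow_succ]
    have h2 : ∑ y ∈ univ.filter (fun y : Fin N → Bool => ∀ i ∈ S, y i = a i),
        f (Function.update y j (a j)) =
        2 * ∑ y ∈ univ.filter (fun y : Fin N → Bool => ∀ i ∈ insert j S, y i = a i), f y := by
      rw [← Finset.sum_filter_add_sum_filter_not _ (fun y : Fin N → Bool => y j = a j)]
      rw [Finset.filter_filter, Finset.filter_filter]
      have e1 : univ.filter (fun y : Fin N → Bool => (∀ i ∈ S, y i = a i) ∧ y j = a j) =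
          univ.filter (fun y : Fin N → Bool => ∀ i ∈ insert j S, y i = a i) := by
        ext y
        simp only [Finset.mem_filter, Finset.mem_univ, true_and, Finset.mem_insert,
          forall_eq_or_imp]
        tauto
      rw [e1, two_mul]
      congr 1
      · apply Finset.sum_congr rfl
        intro y hy
        have : y j = a j := (Finset.mem_filter.mp hy).2 j (Finset.mem_insert_self _ _)
        rw [← this, Function.update_eq_self]
      · refine Finset.sum_bij' (fun y _ => flip j y) (fun y _ => flip j y) ?_ ?_ ?_ ?_ ?_
        · intro y hy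
          simp only [Finset.mem_filter, Finset.mem_univ, true_and] at hy ⊢
          intro i hi
          rcases Finset.mem_insert.mp hi with rfl | hi
          · have := hy.2
            simp only [flip, Function.update_self]
            cases h : y i <;> cases h' : a i <;> simp_all
          · have : i ≠ j := fun h => hj (h ▸ hi)
            simp [flip, this, hy.1 i hi]
        · intro y hy
          simp only [Finset.mem_filter, Finset.mem_univ, true_and] at hy ⊢
          constructor
          · intro i hi
            have : i ≠ j := fun h => hj (h ▸ hi)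
            simp [flip, this, hy i (Finset.mem_insert_of_mem hi)]
          · have := hy j (Finset.mem_insert_self _ _)
            simp only [flip, Function.update_self, this]
            cases a j <;> simp
        · intro y _; exact flip_flip j y
        · intro y _; exact flip_flip j y
        · intro y hy
          have h3 := (Finset.mem_filter.mp hy).2.2
          congr 1
          unfold flip
          congr 1
          cases h : y j <;> cases h' : a j <;> simp_all
    rw [h2]
    ring

/-- the average ovw the bit-fixing source -/
lemma avgR_eq_filter (S : Finset (Fin N)) (a : Fin N → Bool) (f : (Fin N → Bool) → ℝ) :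
    avgR S a f = (∑ y ∈ univ.filter (fun y : Fin N → Bool => ∀ i ∈ S, y i = a i), f y) /
      ((univ.filter (fun y : Fin N → Bool => ∀ i ∈ S, y i = a i)).card : ℝ) := by
  have h1 := sum_ovw S a f
  have h2 := sum_ovw S a (fun _ => 1)
  simp only [Finset.sum_const, Finset.card_univ, nsmul_eq_mul, mul_one] at h2
  have h3 : ((Fintype.card (Fin N → Bool) : ℕ) : ℝ) = 2 ^ N := by simp
  rw [h3] at h2
  unfold avgR avg
  rw [h1, h2]
  have h4 : (0 : ℝ) < 2 ^ S.card := by positivity
  rw [mul_div_mul_left _ _ h4.ne']

end

end Pool.Agent.H.MP_58d537_lc
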