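import Pool.Agent.H.MP_58d537_lc.Cube

/-!
# The fixing induction

If every restriction with small average query weights has small variance, then some restriction
of few coordinates moves the average of `f` by about the standard deviation.
-/

set_option autoImplicit false

open Finset

namespace Pool.Agent.H.MP_58d537_lc

noncomputable section

variable {N : ℕ}

/-- total average weight of the free coordinates -/
def wt (M : Fin N → (Fin N → Bool) → ℝ) (S : Finset (Fin N)) (a : Fin N → Bool) : ℝ :=
  ∑ j ∈ univ \ S, avgR S a (M j)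

lemma avgR_mono {S : Finset (Fin N)} {a : Fin N → Bool} {f g : (Fin N → Bool) → ℝ}
    (h : ∀ x, f x ≤ g x) : avgR S a f ≤ avgR S a g := avg_mono fun x => h _

lemma avgR_nonneg {S : Finset (Fin N)} {a : Fin N → Bool} {f : (Fin N → Bool) → ℝ}
    (h : ∀ x, 0 ≤ f x) : 0 ≤ avgR S a f := avg_nonneg fun x => h _

lemma avgR_const (S : Finset (Fin N)) (a : Fin N → Bool) (c : ℝ) :
    avgR S a (fun _ => c) = c := avg_const c

lemma avgR_sub_sq (S : Finset (Fin N)) (a : Fin N → Bool) (f : (Fin N → Bool) → ℝ) (c : ℝ) :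
    avgR S a (fun x => (f x - c) ^ 2) = var (fun x => f (ovw S a x)) + (avgR S a f - c) ^ 2 :=
  avg_sub_sq (fun x => f (ovw S a x)) c

lemma avgR_sum {ι : Type*} (s : Finset ι) (S : Finset (Fin N)) (a : Fin N → Bool)
    (f : ι → (Fin N → Bool) → ℝ) :
    avgR S a (fun x => ∑ i ∈ s, f i x) = ∑ i ∈ s, avgR S a (f i) :=
  avg_sum s _

lemma wt_nonneg {M : Fin N → (Fin N → Bool) → ℝ} (hM : ∀ j x, 0 ≤ M j x)
    (S : Finset (Fin N)) (a : Fin N → Bool) : 0 ≤ wt M S a :=
  Finset.sum_nonneg fun j _ => avgR_nonneg (hM j)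

/-- the potential decreases when a heavy coordinate is fixed -/
lemma wt_split (M : Fin N → (Fin N → Bool) → ℝ) {S : Finset (Fin N)} {j : Fin N} (hj : j ∉ S)
    (a : Fin N → Bool) :
    (wt M (insert j S) (Function.update a j true) +
      wt M (insert j S) (Function.update a j false)) / 2 = wt M S a - avgR S a (M j) := by
  have h1 : univ \ S = insert j (univ \ insert j S) := by
    ext i
    by_cases hi : i = j
    · subst hi; simp [hj]
    · simp [hi]
  have h2 : j ∉ univ \ insert j S := by simp
  unfold wt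
  rw [h1, Finset.sum_insert h2, ← Finset.sum_add_distrib, Finset.sum_div]
  have h3 : ∀ i, avgR S a (M i) = (avgR (insert j S) (Function.update a j true) (M i) +
      avgR (insert j S) (Function.update a j false) (M i)) / 2 := fun i => avgR_split hj a (M i)
  simp only [← h3]
  ring

/-- **Fixing lemma**. -/
theorem fixing (f : (Fin N → Bool) → ℝ) (hf0 : ∀ x, 0 ≤ f x) (hf1 : ∀ x, f x ≤ 1)
    (M : Fin N → (Fin N → Bool) → ℝ) (hM : ∀ j x, 0 ≤ M j x)
    (c δ ε γ : ℝ) (hc0 : 0 ≤ c) (hc1 : c ≤ 1) (hδ : 0 < δ) (hε : 0 ≤ ε) (D : ℕ)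
    (hlight : ∀ (S : Finset (Fin N)) (a : Fin N → Bool),
      (∀ j, j ∉ S → avgR S a (M j) ≤ δ) → var (fun x => f (ovw S a x)) ≤ ε)
    (hγ : ∀ (S : Finset (Fin N)) (a : Fin N → Bool), S.card ≤ D → |avgR S a f - c| ≤ γ) :
    ∀ (n : ℕ) (S : Finset (Fin N)) (a : Fin N → Bool), 1 ≤ n → S.card + n ≤ D + 1 →
      avgR S a (fun x => (f x - c) ^ 2) ≤ γ ^ 2 + ε + wt M S a / (δ * n) := by
  intro n
  induction n with
  | zero => intro S a h1; omega
  | succ n ih =>
    intro S a _ hcard
    have hS : S.card ≤ D := by omega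
    have hw0 : 0 ≤ wt M S a := wt_nonneg hM S a
    by_cases hl : ∀ j, j ∉ S → avgR S a (M j) ≤ δ
    · have h1 := hlight S a hl
      have h2 := hγ S a hS
      have h3 : (avgR S a f - c) ^ 2 ≤ γ ^ 2 := by
        rw [← sq_abs]
        exact pow_le_pow_left₀ (abs_nonneg _) h2 2
      rw [avgR_sub_sq]
      have h4 : 0 ≤ wt M S a / (δ * ((n + 1 : ℕ) : ℝ)) := by positivity
      linarith
    · push Not at hl
      obtain ⟨j, hj, hjd⟩ := hl
      have hwj : avgR S a (M j) ≤ wt M S a := by
        unfold wt
        exact Finset.single_le_sum (f := fun j => avgR S a (M j))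
          (fun i _ => avgR_nonneg (hM i)) (by simp [hj])
      have hle1 : avgR S a (fun x => (f x - c) ^ 2) ≤ 1 := by
        have : avgR S a (fun x => (f x - c) ^ 2) ≤ avgR S a (fun _ => 1) := by
          apply avgR_mono
          intro x
          have := hf0 x
          have := hf1 x
          nlinarith
        rwa [avgR_const] at this
      by_cases hbig : ((n + 1 : ℕ) : ℝ) * δ ≤ wt M S a
      · have h5 : 1 ≤ wt M S a / (δ * ((n + 1 : ℕ) : ℝ)) := by
          rw [le_div_iff₀ (by positivity)]
          linarith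
        have := sq_nonneg γ
        linarith
      · push Not at hbig
        have hn : 1 ≤ n := by
          rcases Nat.eq_zero_or_pos n with h0 | h0
          · subst h0
            simp only [zero_add, Nat.cast_one, one_mul] at hbig
            linarith
          · exact h0
        have hcard' : (insert j S).card = S.card + 1 := Finset.card_insert_of_notMem hj
        have i1 := ih (insert j S) (Function.update a j true) hn (by omega)
        have i2 := ih (insert j S) (Function.update a j false) hn (by omega)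
        rw [avgR_split hj a]
        have h6 := wt_split M hj a
        have hn' : (0 : ℝ) < n := by exact_mod_cast hn
        have h7 : (wt M S a - δ) / (δ * n) ≤ wt M S a / (δ * ((n + 1 : ℕ) : ℝ)) := by
          rw [div_le_div_iff₀ (by positivity) (by positivity)]
          push_cast at hbig ⊢
          nlinarith [mul_pos hδ hδ]
        calc _ ≤ ((γ ^ 2 + ε + wt M (insert j S) (Function.update a j true) / (δ * n)) +
              (γ ^ 2 + ε + wt M (insert j S) (Function.update a j false) / (δ * n))) / 2 := by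
              linarith
          _ = γ ^ 2 + ε + ((wt M (insert j S) (Function.update a j true) +
              wt M (insert j S) (Function.update a j false)) / 2) / (δ * n) := by ring
          _ = γ ^ 2 + ε + (wt M S a - avgR S a (M j)) / (δ * n) := by rw [h6]
          _ ≤ γ ^ 2 + ε + (wt M S a - δ) / (δ * n) := by
              gcongr
          _ ≤ _ := by linarith

/-- **Bit fixing from light restrictions**: if the weights have total at most `K`, light
restrictions have variance at most `Var/4`, then fixing at most `4K/(δ Var) + 1` bits moves the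
mean by at least `√(Var/2)`. -/
theorem exists_fixing (f : (Fin N → Bool) → ℝ) (hf0 : ∀ x, 0 ≤ f x) (hf1 : ∀ x, f x ≤ 1)
    (M : Fin N → (Fin N → Bool) → ℝ) (hM : ∀ j x, 0 ≤ M j x) (K : ℝ)
    (hK : ∀ x, ∑ j, M j x ≤ K) (δ : ℝ) (hδ : 0 < δ) (hvar : 0 < var f)
    (hlight : ∀ (S : Finset (Fin N)) (a : Fin N → Bool),
      (∀ j, j ∉ S → avgR S a (M j) ≤ δ) → var (fun x => f (ovw S a x)) ≤ var f / 4)
    (n : ℕ) (hn : 1 ≤ n) (hnK : 4 * K ≤ δ * n * var f) :
    ∃ (S : Finset (Fin N)) (a : Fin N → Bool), S.card ≤ n - 1 ∧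
      var f / 2 ≤ (avgR S a f - avg f) ^ 2 := by
  classical
  -- maximal deviation
  obtain ⟨⟨S₀, a₀⟩, hmem, hmax⟩ := Finset.exists_max_image
    ((univ : Finset (Finset (Fin N) × (Fin N → Bool))).filter (fun q => q.1.card ≤ n - 1))
    (fun q => |avgR q.1 q.2 f - avg f|)
    ⟨(∅, fun _ => false), by simp⟩
  refine ⟨S₀, a₀, (Finset.mem_filter.mp hmem).2, ?_⟩
  have hav0 : 0 ≤ avg f := avg_nonneg hf0
  have hav1 : avg f ≤ 1 := by
    have := avg_mono hf1
    rwa [avg_const] at this
  have key := fixing f hf0 hf1 M hM (avg f) δ (var f / 4) (|avgR S₀ a₀ f - avg f|) hav0 hav1 hδ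
    (by positivity) (n - 1) hlight
    (fun S a hS => hmax (S, a) (Finset.mem_filter.mpr ⟨Finset.mem_univ _, hS⟩))
    n ∅ (fun _ => false) hn (by simp; omega)
  rw [avgR_empty, ← var_eq, sq_abs] at key
  have hwt : wt M ∅ (fun _ => false) ≤ K := by
    unfold wt
    rw [Finset.sdiff_empty, ← avgR_sum, avgR_empty]
    have := avg_mono hK
    rwa [avg_const] at this
  have hn' : (0 : ℝ) < n := by exact_mod_cast hn
  have h1 : wt M ∅ (fun _ => false) / (δ * n) ≤ var f / 4 := by
    rw [div_le_iff₀ (by positivity)]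
    linarith
  linarith

end

end Pool.Agent.H.MP_58d537_lc
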