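import Pool.Agent.H.MP_58d537_lc.Fixing

/-!
# Abstract parallel-query algorithms: telescoping and the one-sided influence bound
-/

set_option autoImplicit false

open Finset
open scoped InnerProductSpace

namespace Pool.Agent.H.MP_58d537_lc

noncomputable section

variable {N : ℕ} {H : Type*} [NormedAddCommGroup H] [InnerProductSpace ℂ H]

/-- An abstract algorithm with query rounds: `O x` is the oracle of one round, `P j` the projection
onto the part of the state which is sensitive to the bit `j`, and `k` bounds the number of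
queries in one round. -/
structure QSys (N : ℕ) (H : Type*) [NormedAddCommGroup H] [InnerProductSpace ℂ H] where
  O : (Fin N → Bool) → H ≃ₗᵢ[ℂ] H
  P : Fin N → H →ₗ[ℂ] H
  U : ℕ → H ≃ₗᵢ[ℂ] H
  init : H
  k : ℝ
  symm : ∀ j u v, ⟪P j u, v⟫_ℂ = ⟪u, P j v⟫_ℂ
  idem : ∀ j v, P j (P j v) = P j v
  query : ∀ j x v, O (flip j x) v = O x (v - (2 : ℂ) • P j v)
  weight : ∀ v, ∑ j, ‖P j v‖ ^ 2 ≤ k * ‖v‖ ^ 2
  norm_init : ‖init‖ = 1

/-- the state after `t` rounds -/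
def QSys.st (A : QSys N H) : ℕ → (Fin N → Bool) → H
  | 0, _ => A.init
  | t + 1, x => A.U t (A.O x (A.st t x))

lemma QSys.norm_st (A : QSys N H) (t : ℕ) (x : Fin N → Bool) : ‖A.st t x‖ = 1 := by
  induction t with
  | zero => exact A.norm_init
  | succ t ih => simp only [QSys.st, LinearIsometryEquiv.norm_map, ih]

/-- telescoping formula -/
lemma QSys.tele (A : QSys N H) (x : Fin N → Bool) (t : ℕ) (v : H) :
    ∃ b : ℕ → H, (∀ s, ‖b s‖ = ‖v‖) ∧ ∀ i, ⟪v, A.st t x - A.st t (flip i x)⟫_ℂ =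
      2 * ∑ s ∈ range t, ⟪b s, A.P i (A.st s (flip i x))⟫_ℂ := by
  induction t generalizing v with
  | zero => exact ⟨fun _ => v, fun _ => rfl, fun i => by simp [QSys.st]⟩
  | succ t ih =>
    obtain ⟨b, hb, hb'⟩ := ih ((A.O x).symm ((A.U t).symm v))
    have hn : ‖(A.O x).symm ((A.U t).symm v)‖ = ‖v‖ := by
      simp only [LinearIsometryEquiv.norm_map]
    refine ⟨fun s => if s = t then (A.O x).symm ((A.U t).symm v) else b s, ?_, ?_⟩
    · intro s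
      by_cases hs : s = t
      · simp [hs]
      · simp only [hs, if_false]
        rw [hb s, hn]
    · intro i
      rw [Finset.sum_range_succ]
      have h1 : ∑ s ∈ range t, ⟪(if s = t then (A.O x).symm ((A.U t).symm v) else b s),
          A.P i (A.st s (flip i x))⟫_ℂ = ∑ s ∈ range t, ⟪b s, A.P i (A.st s (flip i x))⟫_ℂ := by
        apply Finset.sum_congr rfl
        intro s hs
        have : s ≠ t := (Finset.mem_range.mp hs).ne
        simp [this]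
      rw [h1, mul_add, ← hb' i]
      simp only [if_true]
      have h2 : A.st (t + 1) x - A.st (t + 1) (flip i x) =
          A.U t (A.O x (A.st t x - A.st t (flip i x) + (2 : ℂ) • A.P i (A.st t (flip i x)))) := by
        simp only [QSys.st]
        rw [A.query i x, ← map_sub, ← map_sub]
        congr 2
        abel
      rw [h2]
      have h3 : ∀ u : H, ⟪v, A.U t (A.O x u)⟫_ℂ = ⟪(A.O x).symm ((A.U t).symm v), u⟫_ℂ := by
        intro u
        have e1 : v = A.U t (A.O x ((A.O x).symm ((A.U t).symm v))) := by simp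
        conv_lhs => rw [e1]
        rw [LinearIsometryEquiv.inner_map_map, LinearIsometryEquiv.inner_map_map]
      rw [h3, inner_add_right, inner_smul_right]

/-- one-sided influence bound for the weight of a projection -/
lemma QSys.diff_le (A : QSys N H) (Q : H →ₗ[ℂ] H) (hQs : ∀ u v, ⟪Q u, v⟫_ℂ = ⟪u, Q v⟫_ℂ)
    (hQi : ∀ v, Q (Q v) = Q v) (x : Fin N → Bool) (t : ℕ) :
    ∃ b : ℕ → H, (∀ s, ‖b s‖ = ‖Q (A.st t x)‖) ∧ ∀ i,
      ‖Q (A.st t x)‖ ^ 2 - ‖Q (A.st t (flip i x))‖ ^ 2 ≤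
        4 * ∑ s ∈ range t, ‖A.P i (b s)‖ * ‖A.P i (A.st s (flip i x))‖ := by
  obtain ⟨b, hb, hb'⟩ := A.tele x t (Q (A.st t x))
  refine ⟨b, hb, fun i => ?_⟩
  set ψ := A.st t x with hψ
  set ψ' := A.st t (flip i x) with hψ'
  have h1 : Q ψ' = Q ψ - Q (ψ - ψ') := by rw [map_sub]; abel
  have h2 : ‖Q ψ'‖ ^ 2 = ‖Q ψ‖ ^ 2 - 2 * (⟪Q ψ, Q (ψ - ψ')⟫_ℂ).re + ‖Q (ψ - ψ')‖ ^ 2 := by
    rw [h1]
    have := norm_sub_sq (𝕜 := ℂ) (Q ψ) (Q (ψ - ψ'))
    simpa only [RCLike.re_to_complex] using this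
  have h3 : ⟪Q ψ, Q (ψ - ψ')⟫_ℂ = ⟪Q ψ, ψ - ψ'⟫_ℂ := by
    rw [← hQs, hQi]
  have h4 : ‖Q ψ‖ ^ 2 - ‖Q ψ'‖ ^ 2 ≤ 2 * (⟪Q ψ, ψ - ψ'⟫_ℂ).re := by
    rw [h2, h3]
    nlinarith [sq_nonneg ‖Q (ψ - ψ')‖]
  refine h4.trans ?_
  rw [hb' i]
  have h5 : (2 * ∑ s ∈ range t, ⟪b s, A.P i (A.st s (flip i x))⟫_ℂ).re =
      2 * ∑ s ∈ range t, (⟪b s, A.P i (A.st s (flip i x))⟫_ℂ).re := by
    rw [Complex.mul_re, Complex.re_sum]
    simp
  have h6 : ∑ s ∈ range t, (⟪b s, A.P i (A.st s (flip i x))⟫_ℂ).re ≤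
      ∑ s ∈ range t, ‖A.P i (b s)‖ * ‖A.P i (A.st s (flip i x))‖ := by
    apply Finset.sum_le_sum
    intro s _
    have h7 : ⟪b s, A.P i (A.st s (flip i x))⟫_ℂ =
        ⟪A.P i (b s), A.P i (A.st s (flip i x))⟫_ℂ := by
      rw [A.symm, A.idem]
    rw [h7]
    exact (Complex.re_le_norm _).trans (norm_inner_le_norm _ _)
  rw [h5]
  linarith

lemma sum_half_pow_le (t : ℕ) : ∑ s ∈ range t, (1 / 2 : ℝ) ^ (t - s) ≤ 1 := by
  have h : ∀ t : ℕ, ∑ s ∈ range t, (1 / 2 : ℝ) ^ (t - s) = 1 - (1 / 2) ^ t := by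
    intro t
    induction t with
    | zero => simp
    | succ t ih =>
      rw [Finset.sum_range_succ]
      have h1 : ∑ s ∈ range t, (1 / 2 : ℝ) ^ (t + 1 - s) =
          (1 / 2) * ∑ s ∈ range t, (1 / 2 : ℝ) ^ (t - s) := by
        rw [Finset.mul_sum]
        apply Finset.sum_congr rfl
        intro s hs
        have := Finset.mem_range.mp hs
        rw [Nat.succ_sub this.le, pow_succ]
        ring
      rw [h1, ih, Nat.add_sub_cancel_left, pow_one, pow_succ]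
      ring
  rw [h]
  have : (0 : ℝ) ≤ (1 / 2) ^ t := by positivity
  linarith

/-- sum of the squared one-sided differences over a set of coordinates -/
lemma QSys.sum_diff_sq_le (A : QSys N H) (Q : H →ₗ[ℂ] H)
    (hQs : ∀ u v, ⟪Q u, v⟫_ℂ = ⟪u, Q v⟫_ℂ)
    (hQi : ∀ v, Q (Q v) = Q v) (x : Fin N → Bool) (t : ℕ) (F : Finset (Fin N)) (m : ℕ → ℝ)
    (hm0 : ∀ s, 0 ≤ m s) (hm : ∀ s < t, ∀ i ∈ F, ‖A.P i (A.st s (flip i x))‖ ^ 2 ≤ m s) :
    ∑ i ∈ F, (max (‖Q (A.st t x)‖ ^ 2 - ‖Q (A.st t (flip i x))‖ ^ 2) 0) ^ 2 ≤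
      (16 * A.k * ∑ s ∈ range t, 2 ^ (t - s) * m s) * ‖Q (A.st t x)‖ ^ 2 := by
  obtain ⟨b, hb, hd⟩ := A.diff_le Q hQs hQi x t
  have h1 : ∀ i ∈ F, (max (‖Q (A.st t x)‖ ^ 2 - ‖Q (A.st t (flip i x))‖ ^ 2) 0) ^ 2 ≤
      16 * ∑ s ∈ range t, 2 ^ (t - s) * m s * ‖A.P i (b s)‖ ^ 2 := by
    intro i hi
    have h2 : max (‖Q (A.st t x)‖ ^ 2 - ‖Q (A.st t (flip i x))‖ ^ 2) 0 ≤
        4 * ∑ s ∈ range t, ‖A.P i (b s)‖ * ‖A.P i (A.st s (flip i x))‖ :=
      max_le (hd i) (by positivity)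
    have h3 : (max (‖Q (A.st t x)‖ ^ 2 - ‖Q (A.st t (flip i x))‖ ^ 2) 0) ^ 2 ≤
        (4 * ∑ s ∈ range t, ‖A.P i (b s)‖ * ‖A.P i (A.st s (flip i x))‖) ^ 2 :=
      pow_le_pow_left₀ (le_max_right _ _) h2 2
    have h4 : (∑ s ∈ range t, ‖A.P i (b s)‖ * ‖A.P i (A.st s (flip i x))‖) ^ 2 ≤
        (∑ s ∈ range t, (1 / 2 : ℝ) ^ (t - s)) *
        ∑ s ∈ range t, 2 ^ (t - s) * (‖A.P i (b s)‖ * ‖A.P i (A.st s (flip i x))‖) ^ 2 := by
      apply Finset.sum_sq_le_sum_mul_sum_of_sq_le_mul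
      · intro s _; positivity
      · intro s _; positivity
      · intro s _
        rw [← mul_assoc, ← mul_pow]
        norm_num
    have h5 : ∑ s ∈ range t, 2 ^ (t - s) * (‖A.P i (b s)‖ * ‖A.P i (A.st s (flip i x))‖) ^ 2 ≤
        ∑ s ∈ range t, 2 ^ (t - s) * m s * ‖A.P i (b s)‖ ^ 2 := by
      apply Finset.sum_le_sum
      intro s hs
      have h6 := hm s (Finset.mem_range.mp hs) i hi
      rw [mul_pow, mul_assoc]
      have h7 : ‖A.P i (b s)‖ ^ 2 * ‖A.P i (A.st s (flip i x))‖ ^ 2 ≤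
          m s * ‖A.P i (b s)‖ ^ 2 := by
        rw [mul_comm]
        exact mul_le_mul_of_nonneg_right h6 (by positivity)
      exact mul_le_mul_of_nonneg_left h7 (by positivity)
    have h8 : 0 ≤ ∑ s ∈ range t, 2 ^ (t - s) *
        (‖A.P i (b s)‖ * ‖A.P i (A.st s (flip i x))‖) ^ 2 := by positivity
    have h9 := sum_half_pow_le t
    calc _ ≤ _ := h3
      _ = 16 * (∑ s ∈ range t, ‖A.P i (b s)‖ * ‖A.P i (A.st s (flip i x))‖) ^ 2 := by ring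
      _ ≤ 16 * ((∑ s ∈ range t, (1 / 2 : ℝ) ^ (t - s)) *
        ∑ s ∈ range t, 2 ^ (t - s) * (‖A.P i (b s)‖ * ‖A.P i (A.st s (flip i x))‖) ^ 2) := by
        gcongr
      _ ≤ 16 * (1 * ∑ s ∈ range t, 2 ^ (t - s) *
          (‖A.P i (b s)‖ * ‖A.P i (A.st s (flip i x))‖) ^ 2) := by gcongr
      _ ≤ _ := by rw [one_mul]; gcongr
  refine (Finset.sum_le_sum h1).trans ?_
  rw [← Finset.mul_sum, Finset.sum_comm]
  have h10 : ∑ s ∈ range t, ∑ i ∈ F, 2 ^ (t - s) * m s * ‖A.P i (b s)‖ ^ 2 ≤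
      ∑ s ∈ range t, 2 ^ (t - s) * m s * (A.k * ‖Q (A.st t x)‖ ^ 2) := by
    apply Finset.sum_le_sum
    intro s _
    rw [← Finset.mul_sum]
    apply mul_le_mul_of_nonneg_left _ (mul_nonneg (by positivity) (hm0 s))
    calc ∑ i ∈ F, ‖A.P i (b s)‖ ^ 2 ≤ ∑ i, ‖A.P i (b s)‖ ^ 2 :=
          Finset.sum_le_univ_sum_of_nonneg fun i => by positivity
      _ ≤ A.k * ‖b s‖ ^ 2 := A.weight _
      _ = _ := by rw [hb]
  calc _ ≤ 16 * ∑ s ∈ range t, 2 ^ (t - s) * m s * (A.k * ‖Q (A.st t x)‖ ^ 2) := by gcongr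
    _ = _ := by rw [← Finset.sum_mul]; ring

end

end Pool.Agent.H.MP_58d537_lc
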