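import Pool.Agent.H.MP_58d537_lc.Moments

/-!
# Light restrictions have small variance
-/

set_option autoImplicit false

open Finset
open scoped InnerProductSpace

namespace Pool.Agent.H.MP_58d537_lc

noncomputable section

variable {N : ℕ} {H : Type*} [NormedAddCommGroup H] [InnerProductSpace ℂ H]

/-- query weight of coordinate `j` in round `t` on the restricted input -/
def QSys.w (A : QSys N H) (S : Finset (Fin N)) (a : Fin N → Bool) (t : ℕ) (j : Fin N)
    (x : Fin N → Bool) : ℝ := ‖A.P j (A.st t (ovw S a x))‖ ^ 2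

lemma QSys.w_nonneg (A : QSys N H) (S : Finset (Fin N)) (a : Fin N → Bool) (t : ℕ) (j : Fin N)
    (x : Fin N → Bool) : 0 ≤ A.w S a t j x := by unfold QSys.w; positivity

lemma QSys.sum_w_le (A : QSys N H) (S : Finset (Fin N)) (a : Fin N → Bool) (t : ℕ)
    (J : Finset (Fin N)) (x : Fin N → Bool) : ∑ j ∈ J, A.w S a t j x ≤ A.k := by
  have h := A.weight (A.st t (ovw S a x))
  rw [A.norm_st, one_pow, mul_one] at h
  refine le_trans ?_ h
  exact Finset.sum_le_univ_sum_of_nonneg fun i => A.w_nonneg S a t i x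

/-- a pointwise bound for the flipped weights with controlled `q`-th power -/
lemma exists_max_pow (F : Finset (Fin N)) (v : Fin N → ℝ) (hv : ∀ i, 0 ≤ v i) (q : ℕ) :
    ∃ m : ℝ, 0 ≤ m ∧ (∀ i ∈ F, v i ≤ m) ∧ m ^ (q + 1) ≤ ∑ i ∈ F, v i ^ (q + 1) := by
  rcases F.eq_empty_or_nonempty with rfl | hF
  · exact ⟨0, le_refl _, by simp, by simp⟩
  · obtain ⟨i, hi, hmax⟩ := Finset.exists_max_image F v hF
    exact ⟨v i, hv i, hmax, Finset.single_le_sum (f := fun i => v i ^ (q + 1))
      (fun j _ => pow_nonneg (hv j) _) hi⟩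

/-- The variance of an accepted weight under a light restriction. -/
theorem QSys.light_var (A : QSys N H) (hk : 0 ≤ A.k) (r p : ℕ) (S : Finset (Fin N))
    (a : Fin N → Bool) {τ : ℝ} (hτ0 : 0 < τ)
    (hτ : ∀ t < r, ∀ j, j ∉ S → avg (A.w S a t j) ≤ τ)
    (ν : ℕ → ℝ) (hν : ∀ s, 0 < ν s)
    (hrec : ∀ t < r, A.k * (τ + ∑ s ∈ range t, (8 * ((p : ℝ) + 1) ^ 2 * A.k * 2 ^ (t - s)) * ν s)
      ^ (2 * p + 1) ≤ ν t ^ (2 * p + 2))
    (Q : H →ₗ[ℂ] H) (hQs : ∀ u v, ⟪Q u, v⟫_ℂ = ⟪u, Q v⟫_ℂ) (hQi : ∀ v, Q (Q v) = Q v)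
    (hQn : ∀ v, ‖Q v‖ ≤ ‖v‖) :
    var (fun x => ‖Q (A.st r (ovw S a x))‖ ^ 2) ≤
      8 * A.k * ∑ s ∈ range r, 2 ^ (r - s) * ν s := by
  classical
  set F : Finset (Fin N) := univ \ S with hF
  have hFmem : ∀ i, i ∈ F ↔ i ∉ S := by intro i; simp [hF]
  -- pointwise maxima
  have hex : ∀ s x, ∃ m : ℝ, 0 ≤ m ∧ (∀ i ∈ F, A.w S a s i (flip i x) ≤ m) ∧
      m ^ (2 * p + 1 + 1) ≤ ∑ i ∈ F, A.w S a s i (flip i x) ^ (2 * p + 1 + 1) := fun s x =>
    exists_max_pow F (fun i => A.w S a s i (flip i x)) (fun i => A.w_nonneg _ _ _ _ _) _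
  choose m hm0 hm1 hm2 using hex
  -- the influence bound for a general projection
  have hinf : ∀ (R : H →ₗ[ℂ] H), (∀ u v, ⟪R u, v⟫_ℂ = ⟪u, R v⟫_ℂ) → (∀ v, R (R v) = R v) →
      ∀ t x, ∑ i, (max (‖R (A.st t (ovw S a x))‖ ^ 2 -
        ‖R (A.st t (ovw S a (flip i x)))‖ ^ 2) 0) ^ 2 ≤
      (16 * A.k * ∑ s ∈ range t, 2 ^ (t - s) * m s x) * ‖R (A.st t (ovw S a x))‖ ^ 2 := by
    intro R hRs hRi t x
    have h1 := A.sum_diff_sq_le R hRs hRi (ovw S a x) t F (fun s => m s x)
      (fun s => hm0 s x) (by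
        intro s _ i hi
        have := hm1 s x i hi
        unfold QSys.w at this
        rwa [ovw_flip ((hFmem i).mp hi)] at this)
    refine le_trans (le_of_eq ?_) h1
    have hsub : F ⊆ univ := Finset.subset_univ _
    rw [← Finset.sum_subset hsub]
    · apply Finset.sum_congr rfl
      intro i hi
      rw [ovw_flip ((hFmem i).mp hi)]
    · intro i _ hi
      have : i ∈ S := by
        by_contra h
        exact hi ((hFmem i).mpr h)
      rw [ovw_flip_mem this]
      simp
  -- moments of the maxima from moments of the weights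
  have hmom : ∀ s, avg (fun x => m s x ^ (2 * p + 2)) ≤
      ∑ j ∈ F, avg (fun x => A.w S a s j x ^ (2 * p + 2)) := by
    intro s
    have h1 := avg_mono (hm2 s)
    rw [avg_sum F (fun i x => A.w S a s i (flip i x) ^ (2 * p + 1 + 1))] at h1
    have h2 : ∀ i, avg (fun x => A.w S a s i (flip i x) ^ (2 * p + 1 + 1)) =
        avg (fun x => A.w S a s i x ^ (2 * p + 2)) := fun i =>
      avg_flip i (fun x => A.w S a s i x ^ (2 * p + 1 + 1))
    simp only [h2] at h1
    exact h1
  -- main induction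
  have hmain : ∀ t < r, avg (fun x => m t x ^ (2 * p + 2)) ≤ ν t ^ (2 * p + 2) := by
    intro t
    induction t using Nat.strong_induction_on with
    | _ t ih =>
      intro ht
      refine (hmom t).trans (le_trans ?_ (hrec t ht))
      have key := moment_bound F (fun j => A.w S a t j) (fun j _ x => A.w_nonneg _ _ _ _ _)
        hk (fun x => A.sum_w_le S a t F x) (2 * p) (range t)
        (fun s => 8 * ((p : ℝ) + 1) ^ 2 * A.k * 2 ^ (t - s)) (fun s _ => by positivity)
        m (fun s _ x => hm0 s x) ν (fun s _ => hν s)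
        (fun s hs => ih s (Finset.mem_range.mp hs) ((Finset.mem_range.mp hs).trans ht)) hτ0
        (by
          apply Finset.sum_le_sum
          intro j hj
          have h1 := avg_pow_le_of_influence (A.w S a t j) (fun x => A.w_nonneg _ _ _ _ _)
            (fun x => 16 * A.k * ∑ s ∈ range t, 2 ^ (t - s) * m s x)
            (fun x => hinf (A.P j) (A.symm j) (A.idem j) t x) p (hτ t ht j ((hFmem j).mp hj))
          refine h1.trans (le_of_eq ?_)
          congr 1
          funext x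
          congr 2
          rw [Finset.mul_sum, Finset.mul_sum]
          apply Finset.sum_congr rfl
          intro s _
          ring)
      exact key
  -- the final variance bound
  have hfin := efron_stein_pos (fun x => ‖Q (A.st r (ovw S a x))‖ ^ 2)
  have h1 : ∑ i, avg (fun x => (max (‖Q (A.st r (ovw S a x))‖ ^ 2 -
      ‖Q (A.st r (ovw S a (flip i x)))‖ ^ 2) 0) ^ 2) ≤
      16 * A.k * ∑ s ∈ range r, 2 ^ (r - s) * ν s := by
    rw [← avg_sum univ (fun i x => (max (‖Q (A.st r (ovw S a x))‖ ^ 2 -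
      ‖Q (A.st r (ovw S a (flip i x)))‖ ^ 2) 0) ^ 2)]
    have h2 : ∀ x, ∑ i, (max (‖Q (A.st r (ovw S a x))‖ ^ 2 -
        ‖Q (A.st r (ovw S a (flip i x)))‖ ^ 2) 0) ^ 2 ≤
        16 * A.k * ∑ s ∈ range r, 2 ^ (r - s) * m s x := by
      intro x
      refine (hinf Q hQs hQi r x).trans ?_
      have h3 : ‖Q (A.st r (ovw S a x))‖ ^ 2 ≤ 1 := by
        have := hQn (A.st r (ovw S a x))
        rw [A.norm_st] at this
        exact pow_le_one₀ (norm_nonneg _) this
      have h4 : 0 ≤ 16 * A.k * ∑ s ∈ range r, 2 ^ (r - s) * m s x := by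
        apply mul_nonneg (by positivity)
        exact Finset.sum_nonneg fun s _ => mul_nonneg (by positivity) (hm0 s x)
      calc _ ≤ (16 * A.k * ∑ s ∈ range r, 2 ^ (r - s) * m s x) * 1 :=
            mul_le_mul_of_nonneg_left h3 h4
        _ = _ := mul_one _
    refine (avg_mono h2).trans ?_
    rw [avg_const_mul, avg_sum (range r) (fun s x => 2 ^ (r - s) * m s x)]
    apply mul_le_mul_of_nonneg_left _ (by positivity)
    apply Finset.sum_le_sum
    intro s hs
    rw [avg_const_mul]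
    apply mul_le_mul_of_nonneg_left _ (by positivity)
    exact avg_le_of_pow (hm0 s) (2 * p + 1) (hν s) (hmain s (Finset.mem_range.mp hs))
  linarith

end

end Pool.Agent.H.MP_58d537_lc
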