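import Pool.Agent.H.MP_58d537_lc.Hybrid

/-!
# Moment recursion for the query weights
-/

set_option autoImplicit false

open Finset
open scoped InnerProductSpace

namespace Pool.Agent.H.MP_58d537_lc

noncomputable section

lemma tangent (n : ℕ) {a b : ℝ} (ha : 0 ≤ a) (hb : 0 ≤ b) :
    ((n : ℝ) + 1) * (a ^ n * b) ≤ n * a ^ (n + 1) + b ^ (n + 1) := by
  induction n with
  | zero => simp
  | succ n ih =>
    have h1 : 0 ≤ (a ^ (n + 1) - b ^ (n + 1)) * (a - b) := by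
      rcases le_total a b with h | h
      · have := pow_le_pow_left₀ ha h (n + 1)
        nlinarith
      · have := pow_le_pow_left₀ hb h (n + 1)
        nlinarith
    have h2 := mul_le_mul_of_nonneg_left ih ha
    push_cast
    have e1 : a ^ (n + 1 + 1) = a * a ^ (n + 1) := by ring
    have e2 : b ^ (n + 1 + 1) = b * b ^ (n + 1) := by ring
    have e3 : a * (((n : ℝ) + 1) * (a ^ n * b)) = ((n : ℝ) + 1) * (a ^ (n + 1) * b) := by ring
    rw [e1, e2]
    rw [e3] at h2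
    nlinarith

variable {N : ℕ}

/-- power mean: a bound for the `(n+1)`-st moment from the `(n+2)`-nd -/
lemma avg_pow_le {m : (Fin N → Bool) → ℝ} (hm : ∀ x, 0 ≤ m x) (n : ℕ) {ν : ℝ} (hν : 0 < ν)
    (h : avg (fun x => m x ^ (n + 2)) ≤ ν ^ (n + 2)) :
    avg (fun x => m x ^ (n + 1)) ≤ ν ^ (n + 1) := by
  have h1 : ∀ x, (((n + 1 : ℕ) : ℝ) + 1) * ν * m x ^ (n + 1) ≤
      ((n + 1 : ℕ) : ℝ) * m x ^ (n + 2) + ν ^ (n + 2) := by
    intro x
    have := tangent (n + 1) (hm x) hν.le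
    calc _ = (((n + 1 : ℕ) : ℝ) + 1) * (m x ^ (n + 1) * ν) := by ring
      _ ≤ _ := this
  have h2 := avg_mono h1
  rw [avg_const_mul, avg_add, avg_const_mul, avg_const] at h2
  have h3 : (((n + 1 : ℕ) : ℝ) + 1) * ν * avg (fun x => m x ^ (n + 1)) ≤
      (((n + 1 : ℕ) : ℝ) + 1) * ν * ν ^ (n + 1) := by
    calc _ ≤ _ := h2
      _ ≤ ((n + 1 : ℕ) : ℝ) * ν ^ (n + 2) + ν ^ (n + 2) := by gcongr
      _ = _ := by ring
  exact le_of_mul_le_mul_left h3 (by positivity)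

lemma avg_le_of_pow {m : (Fin N → Bool) → ℝ} (hm : ∀ x, 0 ≤ m x) (n : ℕ) {ν : ℝ} (hν : 0 < ν)
    (h : avg (fun x => m x ^ (n + 1)) ≤ ν ^ (n + 1)) : avg m ≤ ν := by
  have h1 : ∀ x, ((n : ℝ) + 1) * ν ^ n * m x ≤ n * ν ^ (n + 1) + m x ^ (n + 1) := by
    intro x
    have := tangent n hν.le (hm x)
    calc _ = ((n : ℝ) + 1) * (ν ^ n * m x) := by ring
      _ ≤ _ := this
  have h2 := avg_mono h1
  rw [avg_const_mul, avg_add (fun _ => n * ν ^ (n + 1)) (fun x => m x ^ (n + 1)), avg_const] at h2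
  have h3 : ((n : ℝ) + 1) * ν ^ n * avg m ≤ ((n : ℝ) + 1) * ν ^ n * ν := by
    calc _ ≤ _ := h2
      _ ≤ n * ν ^ (n + 1) + ν ^ (n + 1) := by gcongr
      _ = _ := by ring
  exact le_of_mul_le_mul_left h3 (by positivity)

/-- Young term -/
lemma young_term {ι : Type*} (J : Finset ι) (w : ι → (Fin N → Bool) → ℝ)
    (hw : ∀ j ∈ J, ∀ x, 0 ≤ w j x) {k : ℝ} (hk0 : 0 ≤ k) (hk : ∀ x, ∑ j ∈ J, w j x ≤ k) (n : ℕ)
    {m : (Fin N → Bool) → ℝ} (hm : ∀ x, 0 ≤ m x) {ν μ : ℝ} (hν : 0 < ν) (hμ : 0 < μ)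
    (h : avg (fun x => m x ^ (n + 2)) ≤ ν ^ (n + 2)) :
    ((n : ℝ) + 1) * μ * ∑ j ∈ J, avg (fun x => w j x ^ (n + 1) * m x) ≤
      ν * (n * (∑ j ∈ J, avg (fun x => w j x ^ (n + 2))) + k * μ ^ (n + 1)) := by
  have h0 := avg_pow_le hm n hν h
  have h1 : ∀ j ∈ J, ∀ x, ((n : ℝ) + 1) * ν ^ n * μ * (w j x ^ (n + 1) * m x) ≤
      n * ν ^ (n + 1) * w j x ^ (n + 2) + μ ^ (n + 1) * (w j x * m x ^ (n + 1)) := by
    intro j hj x
    have hwx := hw j hj x
    have := tangent n (mul_nonneg hwx hν.le) (mul_nonneg (hm x) hμ.le)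
    have h2 := mul_le_mul_of_nonneg_left this hwx
    calc _ = w j x * (((n : ℝ) + 1) * ((w j x * ν) ^ n * (m x * μ))) := by ring
      _ ≤ _ := h2
      _ = _ := by ring
  have h2 : ((n : ℝ) + 1) * ν ^ n * μ * ∑ j ∈ J, avg (fun x => w j x ^ (n + 1) * m x) ≤
      n * ν ^ (n + 1) * (∑ j ∈ J, avg (fun x => w j x ^ (n + 2))) +
        μ ^ (n + 1) * ∑ j ∈ J, avg (fun x => w j x * m x ^ (n + 1)) := by
    rw [Finset.mul_sum, Finset.mul_sum, Finset.mul_sum, ← Finset.sum_add_distrib]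
    apply Finset.sum_le_sum
    intro j hj
    have := avg_mono (h1 j hj)
    rw [avg_const_mul, avg_add, avg_const_mul, avg_const_mul] at this
    exact this
  have h3 : ∑ j ∈ J, avg (fun x => w j x * m x ^ (n + 1)) ≤ k * ν ^ (n + 1) := by
    rw [← avg_sum]
    have : ∀ x, ∑ j ∈ J, w j x * m x ^ (n + 1) ≤ k * m x ^ (n + 1) := by
      intro x
      rw [← Finset.sum_mul]
      exact mul_le_mul_of_nonneg_right (hk x) (pow_nonneg (hm x) _)
    refine (avg_mono this).trans ?_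
    rw [avg_const_mul]
    exact mul_le_mul_of_nonneg_left h0 hk0
  have h4 : ν ^ n * (((n : ℝ) + 1) * μ * ∑ j ∈ J, avg (fun x => w j x ^ (n + 1) * m x)) ≤
      ν ^ n * (ν * (n * (∑ j ∈ J, avg (fun x => w j x ^ (n + 2))) + k * μ ^ (n + 1))) := by
    calc _ = ((n : ℝ) + 1) * ν ^ n * μ * ∑ j ∈ J, avg (fun x => w j x ^ (n + 1) * m x) := by ring
      _ ≤ _ := h2
      _ ≤ n * ν ^ (n + 1) * (∑ j ∈ J, avg (fun x => w j x ^ (n + 2))) +
        μ ^ (n + 1) * (k * ν ^ (n + 1)) := by gcongr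
      _ = _ := by ring
  exact le_of_mul_le_mul_left h4 (by positivity)

/-- moment bound from a recursive inequality -/
lemma moment_bound {ι : Type*} (J : Finset ι) (w : ι → (Fin N → Bool) → ℝ)
    (hw : ∀ j ∈ J, ∀ x, 0 ≤ w j x) {k : ℝ} (hk0 : 0 ≤ k) (hk : ∀ x, ∑ j ∈ J, w j x ≤ k) (n : ℕ)
    (T : Finset ℕ) (c : ℕ → ℝ) (hc : ∀ s ∈ T, 0 ≤ c s) (m : ℕ → (Fin N → Bool) → ℝ)
    (hm : ∀ s ∈ T, ∀ x, 0 ≤ m s x)
    (ν : ℕ → ℝ) (hν : ∀ s ∈ T, 0 < ν s)
    (hmν : ∀ s ∈ T, avg (fun x => m s x ^ (n + 2)) ≤ ν s ^ (n + 2)) {τ : ℝ} (hτ : 0 < τ)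
    (hN : ∑ j ∈ J, avg (fun x => w j x ^ (n + 2)) ≤
      ∑ j ∈ J, avg (fun x => w j x ^ (n + 1) * (τ + ∑ s ∈ T, c s * m s x))) :
    ∑ j ∈ J, avg (fun x => w j x ^ (n + 2)) ≤ k * (τ + ∑ s ∈ T, c s * ν s) ^ (n + 1) := by
  set μ := τ + ∑ s ∈ T, c s * ν s with hμdef
  have hμ : 0 < μ := by
    have : 0 ≤ ∑ s ∈ T, c s * ν s :=
      Finset.sum_nonneg fun s hs => mul_nonneg (hc s hs) (hν s hs).le
    linarith
  set X := ∑ j ∈ J, avg (fun x => w j x ^ (n + 2)) with hX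
  have h1 : ∑ j ∈ J, avg (fun x => w j x ^ (n + 1) * (τ + ∑ s ∈ T, c s * m s x)) =
      ∑ j ∈ J, avg (fun x => w j x ^ (n + 1) * τ) +
        ∑ s ∈ T, c s * ∑ j ∈ J, avg (fun x => w j x ^ (n + 1) * m s x) := by
    have h2 : ∀ j ∈ J, avg (fun x => w j x ^ (n + 1) * (τ + ∑ s ∈ T, c s * m s x)) =
        avg (fun x => w j x ^ (n + 1) * τ) +
          ∑ s ∈ T, c s * avg (fun x => w j x ^ (n + 1) * m s x) := by
      intro j _
      have e1 : (fun x => w j x ^ (n + 1) * (τ + ∑ s ∈ T, c s * m s x)) =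
          fun x => w j x ^ (n + 1) * τ + ∑ s ∈ T, c s * (w j x ^ (n + 1) * m s x) := by
        funext x
        rw [mul_add, Finset.mul_sum]
        congr 1
        exact Finset.sum_congr rfl fun s _ => by ring
      rw [e1, avg_add (fun x => w j x ^ (n + 1) * τ)
        (fun x => ∑ s ∈ T, c s * (w j x ^ (n + 1) * m s x)),
        avg_sum T (fun s x => c s * (w j x ^ (n + 1) * m s x))]
      congr 1
      exact Finset.sum_congr rfl fun s _ => avg_const_mul _ _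
    rw [Finset.sum_congr rfl h2, Finset.sum_add_distrib, Finset.sum_comm]
    congr 1
    exact Finset.sum_congr rfl fun s _ => by rw [Finset.mul_sum]
  have hτterm := young_term J w hw hk0 hk n (m := fun _ => τ) (fun _ => hτ.le) hτ hμ
    (by rw [avg_const])
  have hterm : ∀ s ∈ T, ((n : ℝ) + 1) * μ * (c s * ∑ j ∈ J, avg (fun x => w j x ^ (n + 1) * m s x)) ≤
      c s * ν s * (n * X + k * μ ^ (n + 1)) := by
    intro s hs
    have := young_term J w hw hk0 hk n (hm s hs) (hν s hs) hμ (hmν s hs)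
    calc _ = c s * (((n : ℝ) + 1) * μ * ∑ j ∈ J, avg (fun x => w j x ^ (n + 1) * m s x)) := by
          ring
      _ ≤ c s * (ν s * (n * X + k * μ ^ (n + 1))) := mul_le_mul_of_nonneg_left this (hc s hs)
      _ = _ := by ring
  have h3 : ((n : ℝ) + 1) * μ * X ≤ μ * (n * X + k * μ ^ (n + 1)) := by
    calc ((n : ℝ) + 1) * μ * X ≤ ((n : ℝ) + 1) * μ *
          (∑ j ∈ J, avg (fun x => w j x ^ (n + 1) * τ) +
        ∑ s ∈ T, c s * ∑ j ∈ J, avg (fun x => w j x ^ (n + 1) * m s x)) := by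
          rw [← h1]
          exact mul_le_mul_of_nonneg_left hN (by positivity)
      _ = ((n : ℝ) + 1) * μ * ∑ j ∈ J, avg (fun x => w j x ^ (n + 1) * τ) +
          ∑ s ∈ T, ((n : ℝ) + 1) * μ *
            (c s * ∑ j ∈ J, avg (fun x => w j x ^ (n + 1) * m s x)) := by
          rw [mul_add]
          congr 1
          rw [Finset.mul_sum]
      _ ≤ τ * (n * X + k * μ ^ (n + 1)) + ∑ s ∈ T, c s * ν s * (n * X + k * μ ^ (n + 1)) :=
          add_le_add hτterm (Finset.sum_le_sum hterm)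
      _ = μ * (n * X + k * μ ^ (n + 1)) := by
          rw [← Finset.sum_mul, hμdef]
          ring
  have h4 : ((n : ℝ) + 1) * X ≤ n * X + k * μ ^ (n + 1) := by
    have : μ * (((n : ℝ) + 1) * X) ≤ μ * (n * X + k * μ ^ (n + 1)) := by
      calc _ = ((n : ℝ) + 1) * μ * X := by ring
        _ ≤ _ := h3
    exact le_of_mul_le_mul_left this hμ
  linarith

/-- moments of a function with a self-bounding one-sided influence bound -/
lemma avg_pow_le_of_influence (w : (Fin N → Bool) → ℝ) (hw : ∀ x, 0 ≤ w x)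
    (A : (Fin N → Bool) → ℝ)
    (hA : ∀ x, ∑ i, (max (w x - w (flip i x)) 0) ^ 2 ≤ A x * w x) (p : ℕ) {τ : ℝ}
    (hτ : avg w ≤ τ) :
    avg (fun x => w x ^ (2 * p + 2)) ≤
      avg (fun x => w x ^ (2 * p + 1) * (τ + ((p : ℝ) + 1) ^ 2 / 2 * A x)) := by
  have h1 : avg (fun x => w x ^ (2 * p + 2)) = var (fun x => w x ^ (p + 1)) +
      (avg (fun x => w x ^ (p + 1))) ^ 2 := by
    unfold var
    have : (fun x => (w x ^ (p + 1)) ^ 2) = fun x => w x ^ (2 * p + 2) := by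
      funext x; rw [← pow_mul]; congr 1; ring
    rw [this]; ring
  have h2 : var (fun x => w x ^ (p + 1)) ≤
      1 / 2 * ∑ i, avg (fun x => (max (w x ^ (p + 1) - w (flip i x) ^ (p + 1)) 0) ^ 2) :=
    efron_stein_pos (fun x => w x ^ (p + 1))
  have h3 : ∑ i, avg (fun x => (max (w x ^ (p + 1) - w (flip i x) ^ (p + 1)) 0) ^ 2) ≤
      avg (fun x => w x ^ (2 * p + 1) * (((p : ℝ) + 1) ^ 2 * A x)) := by
    rw [← avg_sum univ (fun i x => (max (w x ^ (p + 1) - w (flip i x) ^ (p + 1)) 0) ^ 2)]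
    apply avg_mono
    intro x
    have h4 : ∀ i ∈ (univ : Finset (Fin N)),
        (max (w x ^ (p + 1) - w (flip i x) ^ (p + 1)) 0) ^ 2 ≤
        (((p : ℝ) + 1) ^ 2 * w x ^ (2 * p)) * (max (w x - w (flip i x)) 0) ^ 2 := by
      intro i _
      have h5 : max (w x ^ (p + 1) - w (flip i x) ^ (p + 1)) 0 ≤
          ((p : ℝ) + 1) * w x ^ p * max (w x - w (flip i x)) 0 := by
        rcases le_total (w x) (w (flip i x)) with h | h
        · have := pow_le_pow_left₀ (hw x) h (p + 1)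
          rw [max_eq_right (by linarith), max_eq_right (by linarith)]
          simp
        · have h6 := pow_le_pow_left₀ (hw _) h (p + 1)
          rw [max_eq_left (by linarith), max_eq_left (by linarith)]
          have := tangent p (hw x) (hw (flip i x))
          have e : ((p : ℝ) + 1) * w x ^ p * (w x - w (flip i x)) =
              ((p : ℝ) + 1) * w x ^ (p + 1) - ((p : ℝ) + 1) * (w x ^ p * w (flip i x)) := by ring
          rw [e]
          linarith
      calc _ ≤ (((p : ℝ) + 1) * w x ^ p * max (w x - w (flip i x)) 0) ^ 2 :=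
            pow_le_pow_left₀ (le_max_right _ _) h5 2
        _ = _ := by ring
    calc _ ≤ _ := Finset.sum_le_sum h4
      _ = (((p : ℝ) + 1) ^ 2 * w x ^ (2 * p)) * ∑ i, (max (w x - w (flip i x)) 0) ^ 2 := by
          rw [← Finset.mul_sum]
      _ ≤ (((p : ℝ) + 1) ^ 2 * w x ^ (2 * p)) * (A x * w x) := by
          have := hw x
          exact mul_le_mul_of_nonneg_left (hA x) (by positivity)
      _ = _ := by ring
  have h7 : (avg (fun x => w x ^ (p + 1))) ^ 2 ≤ τ * avg (fun x => w x ^ (2 * p + 1)) := by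
    have h8 := avg_mul_sq_le (fun x => Real.sqrt (w x)) (fun x => Real.sqrt (w x) ^ (2 * p + 1))
    have e1 : (fun x => Real.sqrt (w x) * Real.sqrt (w x) ^ (2 * p + 1)) =
        fun x => w x ^ (p + 1) := by
      funext x
      calc _ = (Real.sqrt (w x) ^ 2) ^ (p + 1) := by ring
        _ = _ := by rw [Real.sq_sqrt (hw x)]
    have e2 : (fun x => Real.sqrt (w x) ^ 2) = w := by
      funext x; rw [Real.sq_sqrt (hw x)]
    have e3 : (fun x => (Real.sqrt (w x) ^ (2 * p + 1)) ^ 2) = fun x => w x ^ (2 * p + 1) := by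
      funext x
      calc _ = (Real.sqrt (w x) ^ 2) ^ (2 * p + 1) := by ring
        _ = _ := by rw [Real.sq_sqrt (hw x)]
    rw [e1, e2, e3] at h8
    refine h8.trans ?_
    exact mul_le_mul_of_nonneg_right hτ (avg_nonneg fun x => pow_nonneg (hw x) _)
  have h9 : avg (fun x => w x ^ (2 * p + 1) * (τ + ((p : ℝ) + 1) ^ 2 / 2 * A x)) =
      τ * avg (fun x => w x ^ (2 * p + 1)) +
        1 / 2 * avg (fun x => w x ^ (2 * p + 1) * (((p : ℝ) + 1) ^ 2 * A x)) := by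
    rw [← avg_const_mul, ← avg_const_mul, ← avg_add]
    congr 1
    funext x
    ring
  rw [h1, h9]
  linarith

end

end Pool.Agent.H.MP_58d537_lc
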