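import Pool.Agent.H.MP_58d537_lc.Light

/-!
# Choice of parameters
-/

set_option autoImplicit false

open Finset
open scoped InnerProductSpace

namespace Pool.Agent.H.MP_58d537_lc

noncomputable section

/-- the exponents `κ^t`, `κ = 1 - 1/(2(p+1))` -/
def kap (p : ℕ) : ℝ := 1 - 1 / (2 * ((p : ℝ) + 1))

lemma kap_pos (p : ℕ) : 0 < kap p := by
  unfold kap
  have : 1 / (2 * ((p : ℝ) + 1)) ≤ 1 / 2 := by
    apply one_div_le_one_div_of_le (by norm_num)
    have : (0 : ℝ) ≤ p := Nat.cast_nonneg p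
    linarith
  linarith

lemma kap_le_one (p : ℕ) : kap p ≤ 1 := by
  unfold kap
  have : 0 ≤ 1 / (2 * ((p : ℝ) + 1)) := by positivity
  linarith

/-- the growth factor `9 q² k^{1+1/q}`, `q = 2(p+1)` -/
def gro (p : ℕ) (k : ℝ) : ℝ := 36 * ((p : ℝ) + 1) ^ 2 * (k * k ^ (1 / (2 * ((p : ℝ) + 1))))

/-- the scale of the maximal weight in round `t` -/
def nu (p : ℕ) (k τ : ℝ) (t : ℕ) : ℝ :=
  k ^ (1 / (2 * ((p : ℝ) + 1))) * gro p k ^ t * τ ^ (kap p ^ (t + 1))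

variable {p : ℕ} {k τ : ℝ}

lemma one_le_root (hk : 1 ≤ k) : 1 ≤ k ^ (1 / (2 * ((p : ℝ) + 1))) :=
  Real.one_le_rpow hk (by positivity)

lemma gro_ge (hk : 1 ≤ k) : 36 ≤ gro p k := by
  unfold gro
  have h1 := one_le_root (p := p) hk
  have h2 : (1 : ℝ) ≤ ((p : ℝ) + 1) ^ 2 := by
    have : (0 : ℝ) ≤ p := Nat.cast_nonneg p
    nlinarith
  have h3 : 1 ≤ k * k ^ (1 / (2 * ((p : ℝ) + 1))) := by nlinarith
  nlinarith

lemma nu_pos (hk : 1 ≤ k) (hτ : 0 < τ) (t : ℕ) : 0 < nu p k τ t := by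
  have h1 := one_le_root (p := p) hk
  have h2 := gro_ge (p := p) hk
  unfold nu
  have h3 : 0 < gro p k := by linarith
  have h4 : 0 < k ^ (1 / (2 * ((p : ℝ) + 1))) := by linarith
  positivity

lemma rpow_kap_mono (hτ0 : 0 < τ) (hτ1 : τ ≤ 1) (t : ℕ) :
    τ ^ (kap p ^ t) ≤ τ ^ (kap p ^ (t + 1)) := by
  apply Real.rpow_le_rpow_of_exponent_ge hτ0 hτ1
  rw [pow_succ]
  have := pow_pos (kap_pos p) t
  have := kap_le_one p
  nlinarith

lemma sum_nu_le (hk : 1 ≤ k) (hτ0 : 0 < τ) (hτ1 : τ ≤ 1) (t : ℕ) :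
    gro p k * ∑ s ∈ range t, 2 ^ (t - s) * nu p k τ s ≤
      4 * k ^ (1 / (2 * ((p : ℝ) + 1))) * gro p k ^ t * τ ^ (kap p ^ t) := by
  have h1 := one_le_root (p := p) hk
  have h2 := gro_ge (p := p) hk
  induction t with
  | zero =>
    simp only [range_zero, sum_empty, mul_zero]
    positivity
  | succ t ih =>
    rw [Finset.sum_range_succ]
    have e1 : ∑ s ∈ range t, 2 ^ (t + 1 - s) * nu p k τ s =
        2 * ∑ s ∈ range t, 2 ^ (t - s) * nu p k τ s := by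
      rw [Finset.mul_sum]
      apply Finset.sum_congr rfl
      intro s hs
      rw [Nat.succ_sub (Finset.mem_range.mp hs).le, pow_succ]
      ring
    rw [e1, Nat.add_sub_cancel_left, pow_one]
    set K := k ^ (1 / (2 * ((p : ℝ) + 1)))
    set G := gro p k
    set X := ∑ s ∈ range t, 2 ^ (t - s) * nu p k τ s
    have hm := rpow_kap_mono (p := p) hτ0 hτ1 t
    set a := τ ^ (kap p ^ t)
    set b := τ ^ (kap p ^ (t + 1)) with hb
    have hb0 : 0 < b := by positivity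
    have hG : 0 < G ^ t := by positivity
    have e2 : nu p k τ t = K * G ^ t * b := rfl
    rw [e2]
    have h3 : 4 * K * G ^ t * a ≤ 4 * K * G ^ t * b := by gcongr
    have h4 : 8 * K * G ^ t * b ≤ 2 * G * (K * G ^ t * b) := by
      have : 0 ≤ K * G ^ t * b := by positivity
      nlinarith
    calc G * (2 * X + 2 * (K * G ^ t * b)) = 2 * (G * X) + 2 * G * (K * G ^ t * b) := by ring
      _ ≤ 2 * (4 * K * G ^ t * a) + 2 * G * (K * G ^ t * b) := by linarith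
      _ ≤ 2 * (4 * K * G ^ t * b) + 2 * G * (K * G ^ t * b) := by linarith
      _ ≤ 2 * G * (K * G ^ t * b) + 2 * G * (K * G ^ t * b) := by linarith
      _ = 4 * K * G ^ (t + 1) * b := by rw [pow_succ]; ring

lemma mu_le (hk : 1 ≤ k) (hτ0 : 0 < τ) (hτ1 : τ ≤ 1) (t : ℕ) :
    τ + ∑ s ∈ range t, (8 * ((p : ℝ) + 1) ^ 2 * k * 2 ^ (t - s)) * nu p k τ s ≤
      gro p k ^ t * τ ^ (kap p ^ t) := by
  have h1 := one_le_root (p := p) hk
  have h2 := gro_ge (p := p) hk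
  rcases Nat.eq_zero_or_pos t with rfl | ht
  · simp
  · have h3 := sum_nu_le (p := p) hk hτ0 hτ1 t
    have e1 : ∑ s ∈ range t, (8 * ((p : ℝ) + 1) ^ 2 * k * 2 ^ (t - s)) * nu p k τ s =
        8 * ((p : ℝ) + 1) ^ 2 * k * ∑ s ∈ range t, 2 ^ (t - s) * nu p k τ s := by
      rw [Finset.mul_sum]
      exact Finset.sum_congr rfl fun s _ => by ring
    rw [e1]
    have hG : 0 < gro p k := by linarith
    have hτt : τ ≤ τ ^ (kap p ^ t) := by
      have : τ ^ (1 : ℝ) ≤ τ ^ (kap p ^ t) := by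
        apply Real.rpow_le_rpow_of_exponent_ge hτ0 hτ1
        exact pow_le_one₀ (kap_pos p).le (kap_le_one p)
      simpa using this
    have hG1 : gro p k ≤ gro p k ^ t := by
      calc gro p k = gro p k ^ 1 := (pow_one _).symm
        _ ≤ gro p k ^ t := pow_le_pow_right₀ (by linarith) ht
    set K := k ^ (1 / (2 * ((p : ℝ) + 1)))
    set G := gro p k with hGdef
    set X := ∑ s ∈ range t, 2 ^ (t - s) * nu p k τ s
    set a := τ ^ (kap p ^ t) with ha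
    have ha0 : 0 < a := by positivity
    have hq : G = 36 * ((p : ℝ) + 1) ^ 2 * (k * K) := rfl
    have key : G * (τ + 8 * ((p : ℝ) + 1) ^ 2 * k * X) ≤ G * (G ^ t * a) := by
      have hkK : 1 ≤ k * K := by nlinarith
      have hp2 : (1 : ℝ) ≤ ((p : ℝ) + 1) ^ 2 := by
        have : (0 : ℝ) ≤ p := Nat.cast_nonneg p
        nlinarith
      have h4 : 8 * ((p : ℝ) + 1) ^ 2 * k * (G * X) ≤
          8 * ((p : ℝ) + 1) ^ 2 * k * (4 * K * G ^ t * a) := by gcongr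
      have h5 : G * τ ≤ G ^ t * a := mul_le_mul hG1 hτt hτ0.le (by positivity)
      have h6 : (1 + 32 * ((p : ℝ) + 1) ^ 2 * (k * K)) ≤ G := by
        rw [hq]
        have : 1 ≤ ((p : ℝ) + 1) ^ 2 * (k * K) := by nlinarith
        nlinarith
      calc G * (τ + 8 * ((p : ℝ) + 1) ^ 2 * k * X)
          = G * τ + 8 * ((p : ℝ) + 1) ^ 2 * k * (G * X) := by ring
        _ ≤ G ^ t * a + 8 * ((p : ℝ) + 1) ^ 2 * k * (4 * K * G ^ t * a) := by linarith
        _ = (1 + 32 * ((p : ℝ) + 1) ^ 2 * (k * K)) * (G ^ t * a) := by ring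
        _ ≤ G * (G ^ t * a) := mul_le_mul_of_nonneg_right h6 (by positivity)
    exact le_of_mul_le_mul_left key hG

lemma nu_rec (hk : 1 ≤ k) (hτ0 : 0 < τ) (hτ1 : τ ≤ 1) (t : ℕ) :
    k * (τ + ∑ s ∈ range t, (8 * ((p : ℝ) + 1) ^ 2 * k * 2 ^ (t - s)) * nu p k τ s)
      ^ (2 * p + 1) ≤ nu p k τ t ^ (2 * p + 2) := by
  have h1 := one_le_root (p := p) hk
  have h2 := gro_ge (p := p) hk
  have h3 := mu_le (p := p) hk hτ0 hτ1 t
  have hG : 0 < gro p k := by linarith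
  have h4 : 0 ≤ τ + ∑ s ∈ range t, (8 * ((p : ℝ) + 1) ^ 2 * k * 2 ^ (t - s)) * nu p k τ s := by
    have : 0 ≤ ∑ s ∈ range t, (8 * ((p : ℝ) + 1) ^ 2 * k * 2 ^ (t - s)) * nu p k τ s :=
      Finset.sum_nonneg fun s _ => mul_nonneg (by positivity) (nu_pos hk hτ0 s).le
    linarith
  have h5 := pow_le_pow_left₀ h4 h3 (2 * p + 1)
  have e1 : (k ^ (1 / (2 * ((p : ℝ) + 1)))) ^ (2 * p + 2) = k := by
    rw [← Real.rpow_natCast, ← Real.rpow_mul (by linarith)]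
    have : 1 / (2 * ((p : ℝ) + 1)) * ((2 * p + 2 : ℕ) : ℝ) = 1 := by
      push_cast
      field_simp
    rw [this, Real.rpow_one]
  have e2 : (τ ^ (kap p ^ (t + 1))) ^ (2 * p + 2) = (τ ^ (kap p ^ t)) ^ (2 * p + 1) := by
    rw [← Real.rpow_natCast (τ ^ (kap p ^ (t + 1))), ← Real.rpow_natCast (τ ^ (kap p ^ t)),
      ← Real.rpow_mul hτ0.le, ← Real.rpow_mul hτ0.le]
    congr 1
    rw [pow_succ, mul_assoc]
    congr 1
    unfold kap
    push_cast
    field_simp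
    ring
  have e3 : nu p k τ t ^ (2 * p + 2) = k * (gro p k ^ t) ^ (2 * p + 2) *
      (τ ^ (kap p ^ t)) ^ (2 * p + 1) := by
    unfold nu
    rw [mul_pow, mul_pow, e1, e2]
  rw [e3]
  calc _ ≤ k * (gro p k ^ t * τ ^ (kap p ^ t)) ^ (2 * p + 1) :=
        mul_le_mul_of_nonneg_left h5 (by linarith)
    _ = k * ((gro p k ^ t) ^ (2 * p + 1) * (τ ^ (kap p ^ t)) ^ (2 * p + 1)) := by rw [mul_pow]
    _ ≤ k * ((gro p k ^ t) ^ (2 * p + 2) * (τ ^ (kap p ^ t)) ^ (2 * p + 1)) := by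
        gcongr
        · exact one_le_pow₀ (by linarith)
        · omega
    _ = _ := by ring

lemma final_sum_le (hk : 1 ≤ k) (hτ0 : 0 < τ) (hτ1 : τ ≤ 1) (r : ℕ) :
    8 * k * ∑ s ∈ range r, 2 ^ (r - s) * nu p k τ s ≤ gro p k ^ r * τ ^ (kap p ^ r) := by
  have h1 := one_le_root (p := p) hk
  have h2 := gro_ge (p := p) hk
  have h3 := sum_nu_le (p := p) hk hτ0 hτ1 r
  have hG : 0 < gro p k := by linarith
  set K := k ^ (1 / (2 * ((p : ℝ) + 1)))
  set G := gro p k with hGdef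
  set X := ∑ s ∈ range r, 2 ^ (r - s) * nu p k τ s
  set a := τ ^ (kap p ^ r) with ha
  have ha0 : 0 < a := by positivity
  have hq : G = 36 * ((p : ℝ) + 1) ^ 2 * (k * K) := rfl
  have hp2 : (1 : ℝ) ≤ ((p : ℝ) + 1) ^ 2 := by
    have : (0 : ℝ) ≤ p := Nat.cast_nonneg p
    nlinarith
  have h6 : 32 * (k * K) ≤ G := by
    rw [hq]
    have : 0 ≤ k * K := by positivity
    nlinarith
  have key : G * (8 * k * X) ≤ G * (G ^ r * a) := by
    calc G * (8 * k * X) = 8 * k * (G * X) := by ring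
      _ ≤ 8 * k * (4 * K * G ^ r * a) := by gcongr
      _ = 32 * (k * K) * (G ^ r * a) := by ring
      _ ≤ G * (G ^ r * a) := by gcongr
  exact le_of_mul_le_mul_left key hG

/-- `κ^r ≥ 1/2` when `p + 1 = r` -/
lemma kap_pow_ge (r : ℕ) (hr : 1 ≤ r) : 1 / 2 ≤ kap (r - 1) ^ r := by
  have h1 : kap (r - 1) = 1 + (-(1 / (2 * (r : ℝ)))) := by
    unfold kap
    rw [Nat.cast_sub hr]
    push_cast
    rw [sub_add_cancel]
    ring
  have hr' : (1 : ℝ) ≤ r := by exact_mod_cast hr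
  have h2 : (-2 : ℝ) ≤ -(1 / (2 * (r : ℝ))) := by
    have : 1 / (2 * (r : ℝ)) ≤ 1 := by
      rw [div_le_one (by positivity)]
      linarith
    linarith
  have h3 := one_add_mul_le_pow h2 r
  rw [h1]
  refine le_trans (le_of_eq ?_) h3
  field_simp
  ring

/-- the variance of a light restriction, with explicit constants -/
lemma QSys.light_var' {N : ℕ} {H : Type*} [NormedAddCommGroup H] [InnerProductSpace ℂ H]
    (A : QSys N H) (hk : 1 ≤ A.k) (r : ℕ) (hr : 1 ≤ r) (S : Finset (Fin N))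
    (a : Fin N → Bool) {τ : ℝ} (hτ0 : 0 < τ) (hτ1 : τ ≤ 1)
    (hτ : ∀ t < r, ∀ j, j ∉ S → avg (A.w S a t j) ≤ τ)
    (Q : H →ₗ[ℂ] H) (hQs : ∀ u v, ⟪Q u, v⟫_ℂ = ⟪u, Q v⟫_ℂ) (hQi : ∀ v, Q (Q v) = Q v)
    (hQn : ∀ v, ‖Q v‖ ≤ ‖v‖) :
    var (fun x => ‖Q (A.st r (ovw S a x))‖ ^ 2) ≤ gro (r - 1) A.k ^ r * Real.sqrt τ := by
  have h1 := A.light_var (by linarith) r (r - 1) S a hτ0 hτ (nu (r - 1) A.k τ)
    (fun s => nu_pos hk hτ0 s) (fun t _ => nu_rec hk hτ0 hτ1 t) Q hQs hQi hQn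
  have h2 := final_sum_le (p := r - 1) hk hτ0 hτ1 r
  refine h1.trans (h2.trans ?_)
  have h3 := gro_ge (p := r - 1) hk
  have h4 : τ ^ (kap (r - 1) ^ r) ≤ Real.sqrt τ := by
    rw [Real.sqrt_eq_rpow]
    exact Real.rpow_le_rpow_of_exponent_ge hτ0 hτ1 (kap_pow_ge r hr)
  exact mul_le_mul_of_nonneg_left h4 (by positivity)

lemma gro_pow_sq (r : ℕ) (hr : 1 ≤ r) (hk : 1 ≤ k) :
    (gro (r - 1) k ^ r) ^ 2 = (6 * r) ^ (4 * r) * k ^ (2 * r + 1) := by
  have hr1 : (((r - 1 : ℕ) : ℝ) + 1) = r := by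
    rw [Nat.cast_sub hr]; push_cast; ring
  have hr' : (0 : ℝ) < r := by exact_mod_cast hr
  unfold gro
  rw [hr1]
  have e1 : (k ^ (1 / (2 * (r : ℝ)))) ^ (2 * r) = k := by
    rw [← Real.rpow_natCast, ← Real.rpow_mul (by linarith)]
    have : 1 / (2 * (r : ℝ)) * ((2 * r : ℕ) : ℝ) = 1 := by
      push_cast
      field_simp
    rw [this, Real.rpow_one]
  calc _ = (36 * (r : ℝ) ^ 2) ^ (2 * r) * (k ^ (2 * r) * (k ^ (1 / (2 * (r : ℝ)))) ^ (2 * r)) := by
        rw [← pow_mul, mul_comm r 2, mul_pow (36 * (r : ℝ) ^ 2), mul_pow k]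
    _ = (36 * (r : ℝ) ^ 2) ^ (2 * r) * (k ^ (2 * r) * k) := by rw [e1]
    _ = _ := by
        have : (36 * (r : ℝ) ^ 2) = (6 * r) ^ 2 := by ring
        rw [this, ← pow_mul, ← pow_succ]
        congr 2
        ring

/-- **Main theorem, abstract form.** -/
theorem QSys.exists_bitfix {N : ℕ} {H : Type*} [NormedAddCommGroup H] [InnerProductSpace ℂ H]
    (A : QSys N H) (hk : 1 ≤ A.k) (r : ℕ) (hr : 1 ≤ r)
    (Q : H →ₗ[ℂ] H) (hQs : ∀ u v, ⟪Q u, v⟫_ℂ = ⟪u, Q v⟫_ℂ) (hQi : ∀ v, Q (Q v) = Q v)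
    (hQn : ∀ v, ‖Q v‖ ≤ ‖v‖) (hvar : 0 < var (fun x => ‖Q (A.st r x)‖ ^ 2)) :
    ∃ (S : Finset (Fin N)) (a : Fin N → Bool),
      (S.card : ℝ) ≤ 64 * r * (6 * r) ^ (4 * r) * A.k ^ (2 * r + 2) /
        var (fun x => ‖Q (A.st r x)‖ ^ 2) ^ 3 ∧
      var (fun x => ‖Q (A.st r x)‖ ^ 2) / 2 ≤
        (avgR S a (fun x => ‖Q (A.st r x)‖ ^ 2) - avg (fun x => ‖Q (A.st r x)‖ ^ 2)) ^ 2 := by
  set f : (Fin N → Bool) → ℝ := fun x => ‖Q (A.st r x)‖ ^ 2 with hf
  have hf0 : ∀ x, 0 ≤ f x := fun x => by positivity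
  have hf1 : ∀ x, f x ≤ 1 := by
    intro x
    have := hQn (A.st r x)
    rw [A.norm_st] at this
    exact pow_le_one₀ (norm_nonneg _) this
  have hv1 : var f ≤ 1 := by
    unfold var
    have h1 : avg (fun x => f x ^ 2) ≤ 1 := by
      have : avg (fun x => f x ^ 2) ≤ avg (fun _ : Fin N → Bool => (1 : ℝ)) :=
        avg_mono fun x => pow_le_one₀ (hf0 x) (hf1 x)
      rwa [avg_const] at this
    nlinarith [sq_nonneg (avg f)]
  have hG := gro_ge (p := r - 1) hk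
  set G := gro (r - 1) A.k ^ r with hGdef
  have hG1 : 1 ≤ G := one_le_pow₀ (by linarith)
  set τ := (var f / (4 * G)) ^ 2 with hτdef
  have hτ0 : 0 < τ := by positivity
  have hτs : Real.sqrt τ = var f / (4 * G) := by
    rw [hτdef, Real.sqrt_sq (by positivity)]
  have hτ1 : τ ≤ 1 := by
    rw [hτdef]
    apply pow_le_one₀ (by positivity)
    rw [div_le_one (by positivity)]
    linarith
  have hr' : (1 : ℝ) ≤ r := by exact_mod_cast hr
  -- the bound
  set n : ℕ := ⌈4 * (r * A.k) / (τ * var f)⌉₊ with hn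
  have hnpos : 0 < 4 * (r * A.k) / (τ * var f) := by positivity
  have hn1 : 1 ≤ n := Nat.one_le_iff_ne_zero.mpr (Nat.ceil_pos.mpr hnpos).ne'
  have hnlow : 4 * (r * A.k) / (τ * var f) ≤ n := Nat.le_ceil _
  have hnup : (n : ℝ) < 4 * (r * A.k) / (τ * var f) + 1 := Nat.ceil_lt_add_one hnpos.le
  obtain ⟨S, a, hcard, hdev⟩ := exists_fixing f hf0 hf1
    (fun j x => ∑ t ∈ range r, ‖A.P j (A.st t x)‖ ^ 2)
    (fun j x => Finset.sum_nonneg fun t _ => by positivity) (r * A.k)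
    (by
      intro x
      rw [Finset.sum_comm]
      calc _ ≤ ∑ t ∈ range r, A.k := by
            apply Finset.sum_le_sum
            intro t _
            have := A.weight (A.st t x)
            rwa [A.norm_st, one_pow, mul_one] at this
        _ = r * A.k := by simp) τ hτ0 hvar
    (by
      intro S a hl
      have h1 := A.light_var' hk r hr S a hτ0 hτ1 (by
        intro t ht j hj
        refine le_trans ?_ (hl j hj)
        unfold avgR QSys.w
        apply avg_mono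
        intro x
        exact Finset.single_le_sum (f := fun t => ‖A.P j (A.st t (ovw S a x))‖ ^ 2)
          (fun t _ => by positivity) (Finset.mem_range.mpr ht)) Q hQs hQi hQn
      refine h1.trans (le_of_eq ?_)
      rw [hτs, ← hGdef]
      field_simp)
    n hn1 (by
      rw [div_le_iff₀ (by positivity)] at hnlow
      linarith)
  refine ⟨S, a, ?_, hdev⟩
  have hc : (S.card : ℝ) ≤ n - 1 := by
    have : (S.card : ℝ) ≤ ((n - 1 : ℕ) : ℝ) := by exact_mod_cast hcard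
    rwa [Nat.cast_sub hn1, Nat.cast_one] at this
  have hc2 : (S.card : ℝ) ≤ 4 * (r * A.k) / (τ * var f) := by linarith
  refine hc2.trans (le_of_eq ?_)
  have e := gro_pow_sq (k := A.k) r hr hk
  rw [← hGdef] at e
  rw [hτdef]
  have e2 : 4 * (r * A.k) / ((var f / (4 * G)) ^ 2 * var f) =
      64 * r * A.k * G ^ 2 / var f ^ 3 := by
    field_simp
    ring
  rw [e2, e]
  congr 1
  ring

end

end Pool.Agent.H.MP_58d537_lc
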